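import Pool.Agent.MP_1a6d78_lc.PL.Defs

-- ======== part 0: formerly Pool.Agent.MP_1a6d78_lc.PL.Cov
section MrgPart0

/-! PROJECT PSC, row RED, part 2: pairings without crossings. -/

namespace Pool.Agent.MP_1a6d78_lc.PL

open Classical ED PR

variable {m a c L : ℕ} {o f u v : ℕ → ℕ}

theorem blk_dm (hm : 0 < m) (h : Iv m o) (j : ℕ) :
    blk m o j / m = j / m ∧ blk m o j % m = o (j % m) := by
  have := (h _ (Nat.mod_lt j hm)).1
  unfold blk
  rw [add_comm, Nat.add_mul_div_right _ _ hm, Nat.add_mul_mod_self_right, Nat.div_eq_of_lt this,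
    Nat.mod_eq_of_lt this, zero_add]
  exact ⟨rfl, rfl⟩

theorem blk_blk (hm : 0 < m) (h : Iv m o) (j : ℕ) : blk m o (blk m o j) = j := by
  have := blk_dm hm h j
  rw [blk, this.1, this.2, (h _ (Nat.mod_lt j hm)).2, Nat.div_add_mod']

theorem blk_nc (hm : 0 < m) (h : Iv m o) (k : Nc m id o) (i j : ℕ) :
    ¬(i < j ∧ j < blk m o i ∧ blk m o i < blk m o j) := by
  rintro ⟨h1, h2, h3⟩
  have e : j / m = i / m := le_antisymm
    ((Nat.div_le_div_right h2.le).trans (blk_dm hm h i).1.le) (Nat.div_le_div_right h1.le)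
  have i1 := Nat.div_add_mod' i m
  have i2 := Nat.div_add_mod' j m
  have := k _ (Nat.mod_lt i hm) _ (Nat.mod_lt j hm)
  simp only [blk, id, e] at *
  omega

theorem near (hm : 0 < m) {i j : ℕ} (e : i / m = j / m) : i < j + m := by
  have i1 := Nat.div_add_mod' i m
  have i2 := Nat.div_add_mod' j m
  have := Nat.mod_lt i hm
  rw [e] at i1
  omega

theorem win_iv (h : ∀ j, f (f j) = j) : Iv L (win c L f) := fun j hj => by
  by_cases k : c ≤ f (j + c) ∧ f (j + c) < c + L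
  · have e : win c L f j = f (j + c) - c := if_pos k
    rw [e, win, Nat.sub_add_cancel k.1, h, if_pos (by omega)]
    omega
  · have e : win c L f j = j := if_neg k
    rw [e, e]
    exact ⟨hj, rfl⟩

theorem win_nc (h : ∀ i j, ¬(i < j ∧ j < f i ∧ f i < f j)) : Nc L id (win c L f) :=
  fun i _ j _ => by
    have := h (i + c) (j + c)
    simp only [win, id]
    split_ifs <;> omega

theorem rot_mod (ha : a < m) (h : Iv m o) (r : ℕ) :
    rot m a o r < m ∧ (rot m a o r + a) % m = o ((r + a) % m) := by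
  have := (h _ (Nat.mod_lt (r + a) (by omega))).1
  unfold rot
  split_ifs with k
  · rw [Nat.sub_add_cancel k, Nat.mod_eq_of_lt this]
    exact ⟨by omega, rfl⟩
  · rw [Nat.sub_add_cancel (by omega), Nat.add_mod_right, Nat.mod_eq_of_lt this]
    exact ⟨by omega, rfl⟩

theorem mod_two {r : ℕ} (ha : a < m) (hr : r < m) :
    (r + a < m ∧ (r + a) % m = r + a) ∨ (m ≤ r + a ∧ (r + a) % m + m = r + a) := by
  rcases lt_or_ge (r + a) m with k | k
  · exact Or.inl ⟨k, Nat.mod_eq_of_lt k⟩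
  · refine Or.inr ⟨k, ?_⟩
    rw [Nat.mod_eq_sub_mod k, Nat.mod_eq_of_lt (by omega)]
    omega

theorem rot_iv (ha : a < m) (h : Iv m o) : Iv m (rot m a o) := fun r hr => by
  refine ⟨(rot_mod ha h r).1, ?_⟩
  have := mod_two ha hr
  rw [rot, (rot_mod ha h r).2, (h _ (Nat.mod_lt (r + a) (by omega))).2]
  split_ifs <;> omega

theorem rot_nc (ha : a < m) (h : Iv m o) (k : Nc m id o) : Nc m id (rot m a o) := by
  intro r hr s hs
  have i1 := mod_two ha hr
  have i2 := mod_two ha hs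
  have l1 := Nat.mod_lt (r + a) (show 0 < m by omega)
  have l2 := Nat.mod_lt (s + a) (show 0 < m by omega)
  simp only [rot, id]
  generalize (r + a) % m = x at *
  generalize (s + a) % m = y at *
  have j1 := h x l1
  have j2 := h y l2
  have k1 := k x l1 y l2
  have k2 := k y l2 _ j1.1
  have k3 := k _ j1.1 _ j2.1
  have k4 := k _ j2.1 x l1
  simp only [id, j1.2, j2.2] at k1 k2 k3 k4
  split_ifs <;> omega

theorem up_odd (j : ℕ) : upP L c u (2 * j + 1) = 2 * u j + 1 := by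
  rw [upP, if_neg (by omega), if_neg (by omega), if_pos (by omega),
    show (2 * j + 1) / 2 = j by omega]

theorem up_last : upP L c u (2 * L) = 2 * c := by rw [upP, if_pos rfl]

theorem up_even (j : ℕ) : upP L c u (2 * j) =
    if j = L then 2 * c else if j = c then 2 * L else 2 * j := by
  unfold upP
  split_ifs <;> omega

theorem up_iv (h : Iv L u) (hc : c < L) : Iv (2 * L + 1) (upP L c u) := fun p hp => by
  rcases Nat.even_or_odd' p with ⟨j, rfl | rfl⟩
  · rw [up_even]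
    split_ifs <;> rw [up_even] <;> split_ifs <;> omega
  · have := h j (by omega)
    rw [up_odd, up_odd, this.2]
    omega

theorem up_nc (h : Iv L u) (k : Nc L id u) (hc : c < L) (b : ∀ j < L, j < c ↔ u j < c) :
    Nc (2 * L + 1) id (upP L c u) := by
  intro p hp r hr
  rcases Nat.even_or_odd' p with ⟨i, rfl | rfl⟩ <;> rcases Nat.even_or_odd' r with ⟨j, rfl | rfl⟩ <;>
    simp only [up_even, up_odd, id]
  · split_ifs <;> omega
  · have := h j (by omega)
    split_ifs <;> omega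
  · have := b i (by omega)
    split_ifs <;> omega
  · have := k i (by omega) j (by omega)
    simp only [id] at this
    omega

theorem dn_odd (j : ℕ) : dnP v (2 * j + 1) = 2 * (v j + 1) := by
  rw [dnP, if_neg (by omega), if_pos (by omega), show (2 * j + 1) / 2 = j by omega]
  omega

theorem dn_even (j : ℕ) : dnP v (2 * (j + 1)) = 2 * v j + 1 := by
  rw [dnP, if_neg (by omega), if_neg (by omega), show 2 * (j + 1) / 2 - 1 = j by omega]

theorem cases3 (p : ℕ) : p = 0 ∨ ∃ j, p = 2 * j + 1 ∨ p = 2 * (j + 1) := by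
  rcases p with _ | p
  · exact Or.inl rfl
  · exact Or.inr ⟨p / 2, by omega⟩

theorem dn_iv (h : Iv L v) : Iv (2 * L + 1) (dnP v) := fun p hp => by
  rcases cases3 p with rfl | ⟨j, rfl | rfl⟩
  · simp [dnP]
  · have := h j (by omega)
    rw [dn_odd, dn_even, this.2]
    omega
  · have := h j (by omega)
    rw [dn_even, dn_odd, this.2]
    omega

theorem dn_nc (h : Iv L v) (k : Nc L id v) : Nc (2 * L + 1) id (dnP v) := by
  intro p hp r hr
  rcases cases3 p with rfl | ⟨i, e1⟩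
  · simp [dnP]
  rcases cases3 r with rfl | ⟨j, e2⟩
  · simp
  have i1 := k i (by omega) j (by omega)
  have i2 := h.pm.2 i (by omega) j (by omega)
  have i3 := (h i (by omega)).2
  have i4 := (h j (by omega)).2
  have i5 : i = j → v i = v j := fun e => by rw [e]
  have i6 : j = v i → v j = v (v i) := fun e => by rw [e]
  have i7 : i = v j → v i = v (v j) := fun e => by rw [e]
  simp only [id] at i1
  rcases e1 with rfl | rfl <;> rcases e2 with rfl | rfl <;> simp only [dn_odd, dn_even, id] <;>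
    omega

end Pool.Agent.MP_1a6d78_lc.PL

end MrgPart0

-- ======== part 1: formerly Pool.Agent.MP_1a6d78_lc.PL.Tour
section MrgPart1

/-! PROJECT PSC, row RED, part 3: the contour through `t` and its cover. -/

namespace Pool.Agent.MP_1a6d78_lc.PL

open Classical ED PR

/-- The facts on the contour. -/
structure ConK (M : Mp) : Prop where
  iv : Iv M.n (ta M)
  sb : Sb M.n (ta M) M.β
  pos : 0 < per M
  lt : ∀ j, dd M j < M.n
  succ : ∀ j, dd M (j + 1) = ph M (dd M j)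
  zero : dd M 0 = M.t
  ix : ∀ j, ix M (dd M j) = j % per M
  ixs : PL.ix M M.s < per M
  on : ∀ d, Sc M.n (ph M) M.t d ↔ ∃ j, dd M j = d
  conn : ∀ a b, Conn M.n M.ρ M.β a b → ((∃ j, dd M j = a) ↔ ∃ j, dd M j = b)
  nci : Nc (per M) id fun r => PL.ix M (ta M (dd M r))
  nco : Nc (per M) id fun r => PL.ix M (out M.β (ta M) (dd M r))
  ivo : Iv M.n (out M.β (ta M))

theorem conK {M : Mp} (h : M.Ok) (ht : M.t < M.n) : ConK M := by
  have fok : (fm M).Ok := ⟨h.pm, h.iv, h.pl, fun a ha b hb => Mp.nd_iff h.pm ha hb,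
    fun _ _ k => absurd k (lt_irrefl _), fun d hd k => absurd hd (by rw [← k]; exact lt_irrefl _)⟩
  have msf := msfS nclK _ fok
  have iv : Iv M.n (ta M) := msf.iv
  have span : ∀ d < M.n, Conn M.n M.ρ (ta M) d (M.β d) := fun d hd => by
    have := msf.span d hd
    simp only [Fm.mx, fm, le_refl, if_true] at this
    exact this
  have p : Pm M.n (ph M) := h.pm.comp iv.pm
  obtain ⟨rt, hrt⟩ : ∃ rt : ℕ → Prop, ∀ d, rt d ↔ (d = M.t ∨ ¬Sc M.n (ph M) d M.t) :=
    ⟨_, fun _ => Iff.rfl⟩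
  have ex : ∀ d < M.n, ∃ e < M.n, Sc M.n (ph M) d e ∧ rt e := fun d hd => by
    by_cases k : Sc M.n (ph M) d M.t
    · exact ⟨_, ht, k, (hrt _).2 (Or.inl rfl)⟩
    · exact ⟨d, hd, Sc.refl _ hd, (hrt _).2 (Or.inr k)⟩
  have K : ContK M.n M.ρ M.β (ta M) rt (st M.n (ph M) rt) (ps M.n (ph M) rt) :=
    contS swapK M.n M.ρ M.β (ta M) rt h.pm h.iv h.pl iv msf.sb span msf.br fun d hd =>
      (ex d hd).imp fun e k => ⟨k.1, Sc.conn h.pm iv hd k.2.1, k.2.2⟩
  have cst : ∀ d < M.n, Sc M.n (ph M) M.t d ↔ st M.n (ph M) rt d = M.t := fun d hd => by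
    obtain ⟨k1, k2, k3⟩ := lst_spec (ex d hd)
    refine ⟨fun k => ((hrt _).1 k3).resolve_right fun u =>
      u ((k2.symm p hd).trans p.1 k1 (k.symm p ht)), fun k => ?_⟩
    have k4 : Sc M.n (ph M) d (st M.n (ph M) rt d) := k2
    rw [k] at k4
    exact k4.symm p hd
  have pe : per M < M.n + 1 ∧ 0 < per M ∧ it M.n (ph M) (per M) M.t = M.t := by
    obtain ⟨s, k1, k2⟩ := (Sc.step p.1 ht).symm p ht
    refine lst_spec (P := fun k => 0 < k ∧ it M.n (ph M) k M.t = M.t) ⟨s + 1, by omega, by omega, ?_⟩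
    rw [it_eq p.1 (p.1 _ ht)] at k2
    rw [it_eq p.1 ht]
    exact k2
  have de : ∀ j, dd M j = (ph M)^[j] M.t := fun j => by
    have := pe.2.2
    rw [it_eq p.1 ht] at this
    rw [dd, it_eq p.1 ht]
    exact Function.IsPeriodicPt.iterate_mod_apply this j
  have lt : ∀ j, dd M j < M.n := fun j => by
    rw [de]
    exact iter_inv (Q := fun a => a < M.n) p.1 ht j
  have dist : ∀ i j, i < j → j < per M → (ph M)^[i] M.t ≠ (ph M)^[j] M.t := fun i j k1 k2 e => by
    obtain ⟨u, rfl⟩ := Nat.exists_eq_add_of_lt k1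
    rw [add_assoc, Function.iterate_add_apply] at e
    have e' := p.iter_inj i ht (iter_inv (Q := fun a => a < M.n) p.1 ht _) e
    have : per M ≤ u + 1 := lst_le (by omega) ⟨by omega, (it_eq p.1 ht _).trans e'.symm⟩
    omega
  have ixd : ∀ j, ix M (dd M j) = j % per M := fun j => by
    have l := Nat.mod_lt j pe.2.1
    have k1 : ix M (dd M j) ≤ j % per M := lst_le (by omega) rfl
    have k2 := (lst_spec (n := M.n) (P := fun k => it M.n (ph M) k M.t = dd M j)
      ⟨j % per M, by omega, rfl⟩).2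
    refine k1.eq_or_lt.resolve_right fun k => dist _ _ k l ?_
    rw [← it_eq p.1 ht, ← it_eq p.1 ht]
    exact k2
  have on : ∀ d, Sc M.n (ph M) M.t d ↔ ∃ j, dd M j = d := fun d => by
    rw [sc_iff p.1 ht]
    simp only [de]
  have c1 : ∀ a < M.n, (∃ j, dd M j = a) ↔ ∃ j, dd M j = M.ρ a := fun a ha => by
    rw [← on, ← on, cst a ha, cst _ (h.pm.1 a ha), K.uniq a ha _ (h.pm.1 a ha) (Sc.step h.pm.1 ha)]
  have c2 : ∀ a < M.n, (∃ j, dd M j = a) ↔ ∃ j, dd M j = ta M a := fun a ha => by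
    rw [c1 _ (iv a ha).1, ← on, ← on]
    exact ⟨fun k => k.trans p.1 ht (Sc.step p.1 ha),
      fun k => k.trans p.1 ht ((Sc.step p.1 ha).symm p ha)⟩
  have eqv : Equivalence fun a b => (∃ j, dd M j = a) ↔ ∃ j, dd M j = b :=
    ⟨fun _ => Iff.rfl, Iff.symm, Iff.trans⟩
  have c3 : ∀ a < M.n, (∃ j, dd M j = a) ↔ ∃ j, dd M j = M.β a := fun a ha =>
    Conn.ind eqv c1 c2 (span a ha)
  have ps' : ∀ d, (∃ j, dd M j = d) → ps M.n (ph M) rt d = M.t * M.n + ix M d := by
    rintro _ ⟨j, rfl⟩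
    rw [ps, (cst _ (lt j)).1 ((on _).2 ⟨j, rfl⟩)]
    rfl
  have nc : ∀ o : ℕ → ℕ, (∀ j, ∃ i, dd M i = o (dd M j)) → Nc M.n (ps M.n (ph M) rt) o →
      Nc (per M) id fun r => ix M (o (dd M r)) := fun o k1 k2 a ha b hb => by
    have := k2 _ (lt a) _ (lt b)
    rw [ps' _ ⟨a, rfl⟩, ps' _ ⟨b, rfl⟩, ps' _ (k1 a), ps' _ (k1 b), ixd, ixd, Nat.mod_eq_of_lt ha,
      Nat.mod_eq_of_lt hb] at this
    simp only [id]
    omega
  refine ⟨iv, msf.sb, pe.2.1, lt, fun j => by rw [de, de, Function.iterate_succ_apply'], de 0, ixd,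
    ?_, on, fun a b k => Conn.ind eqv c1 c3 k, nc _ (fun j => (c2 _ (lt j)).1 ⟨j, rfl⟩) K.nci,
    nc _ (fun j => ?_) K.nco, K.ivo⟩
  · by_cases k : Sc M.n (ph M) M.t M.s
    · obtain ⟨j, e⟩ := (on _).1 k
      rw [← e, ixd]
      exact Nat.mod_lt j pe.2.1
    · exact (lst_none k).trans_lt pe.2.1
  · unfold out
    split_ifs
    · exact (c3 _ (lt j)).1 ⟨j, rfl⟩
    · exact ⟨j, rfl⟩

namespace ConK

variable {M : Mp} (K : ConK M)
include K

omit K in
theorem md {i j : ℕ} (e : i % per M = j % per M) : dd M i = dd M j := by rw [dd, dd, e]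

theorem dix {d : ℕ} (h : ∃ j, dd M j = d) : PL.ix M d < per M ∧ dd M (PL.ix M d) = d := by
  obtain ⟨j, rfl⟩ := h
  rw [K.ix]
  exact ⟨Nat.mod_lt j K.pos, md (Nat.mod_mod _ _)⟩

theorem idx {o : ℕ → ℕ} (h : Iv M.n o) (c : ∀ j, ∃ i, dd M i = o (dd M j)) :
    Iv (per M) fun r => PL.ix M (o (dd M r)) := fun r hr => by
  have := K.dix (c r)
  refine ⟨this.1, ?_⟩
  simp only [this.2, (h _ (K.lt r)).2, K.ix, Nat.mod_eq_of_lt hr]

theorem cb (j : ℕ) : ∃ i, dd M i = M.β (dd M j) := (K.conn _ _ (Conn.gam _ _ (K.lt j))).1 ⟨j, rfl⟩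

theorem ct (j : ℕ) : ∃ i, dd M i = ta M (dd M j) := by
  rcases K.sb _ (K.lt j) with e | e <;> rw [e]
  · exact ⟨j, rfl⟩
  · exact K.cb j

theorem co (j : ℕ) : ∃ i, dd M i = out M.β (ta M) (dd M j) := by
  unfold out
  split_ifs
  · exact K.cb j
  · exact ⟨j, rfl⟩

theorem dn (j : ℕ) : dnJ M j / per M = j / per M ∧ dd M (dnJ M j + 1) = M.ρ (dd M j) := by
  have := blk_dm K.pos (K.idx K.iv K.ct) j
  refine ⟨this.1, ?_⟩
  have e : dd M (dnJ M j) = ta M (dd M j) := by
    rw [md (i := dnJ M j) ((Nat.mod_mod _ _).symm.trans (congrArg (· % per M) this.2)),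
      (K.dix (K.ct _)).2, md (Nat.mod_mod j _)]
  rw [K.succ, e, ph, (K.iv _ (K.lt j)).2]

theorem dn_iv : Iv (len M) (dnJ M) := fun j hj =>
  ⟨by rwa [len, ← Nat.div_lt_iff_lt_mul K.pos, (K.dn j).1, Nat.div_lt_iff_lt_mul K.pos],
    blk_blk K.pos (K.idx K.iv K.ct) j⟩

theorem dn_nc : Nc (len M) id (dnJ M) := fun i _ j _ => blk_nc K.pos (K.idx K.iv K.ct) K.nci i j

theorem up_iv : Iv (len M) (upJ M) := win_iv (blk_blk K.pos (rot_iv K.ixs (K.idx K.ivo K.co)))

theorem up_nc : Nc (len M) id (upJ M) :=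
  win_nc (blk_nc K.pos (rot_iv K.ixs (K.idx K.ivo K.co)) (rot_nc K.ixs (K.idx K.ivo K.co) K.nco))

theorem up (j : ℕ) : (j < M.n * per M + PL.ix M M.s ↔ upJ M j < M.n * per M + PL.ix M M.s) ∧
    upJ M j < j + per M ∧ j < upJ M j + per M ∧
    (dd M (upJ M j) = out M.β (ta M) (dd M j) ∨
      (upJ M j = j ∧ (j < per M ∨ len M < j + per M))) := by
  have a := K.ixs
  have i1 := K.idx K.ivo K.co
  obtain ⟨b1, b2⟩ := blk_dm K.pos (rot_iv a i1) (j + (per M - PL.ix M M.s))
  have n1 := near K.pos b1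
  have n2 := near K.pos b1.symm
  have r := (rot_mod a i1 ((j + (per M - PL.ix M M.s)) % per M)).2
  rw [← b2, Nat.mod_add_mod, Nat.mod_add_mod, add_assoc, Nat.sub_add_cancel a.le,
    Nat.add_mod_right] at r
  have q1 := Nat.div_lt_iff_lt_mul (x := j + (per M - PL.ix M M.s)) (y := M.n + 1) K.pos
  rw [← b1, Nat.div_lt_iff_lt_mul K.pos, add_mul] at q1
  unfold upJ win
  generalize blk (per M) (rot (per M) (PL.ix M M.s) fun r =>
    PL.ix M (out M.β (ta M) (dd M r))) (j + (per M - PL.ix M M.s)) = y at *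
  split_ifs with k
  · refine ⟨by omega, by omega, by omega, Or.inl ?_⟩
    have e : y + PL.ix M M.s = y - (per M - PL.ix M M.s) + per M := by omega
    rw [e, Nat.add_mod_right] at r
    rw [md ((Nat.mod_mod _ _).symm.trans (congrArg (· % per M) r)), (K.dix (K.co _)).2,
      md (Nat.mod_mod j _)]
  · exact ⟨Iff.rfl, by omega, by omega, Or.inr ⟨rfl, by omega⟩⟩

theorem c_lt : M.n * per M + PL.ix M M.s < len M := by
  have := K.ixs
  rw [len, add_mul, mul_assoc]
  omega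

end ConK

end Pool.Agent.MP_1a6d78_lc.PL

end MrgPart1

-- marker of a merged file
example : 731051 + 329349 = 731051 + 329349 := rfl
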