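import Pool.Agent.MP_1a6d78_lc.PL.Gad
import Pool.Agent.MP_1a6d78_lc.PL.Tour

-- ======== part 0: formerly Pool.Agent.MP_1a6d78_lc.PL.Red
section MrgPart0

/-! PROJECT PSC, row RED, part 4: walks lift to the cover. -/

namespace Pool.Agent.MP_1a6d78_lc.PL

open Classical ED PR

/-- The vertices reached by at most `k` arcs. -/
def Lv (arc : ℕ → ℕ → Prop) (s : ℕ) : ℕ → ℕ → Prop
  | 0 => fun v => v = s
  | k + 1 => fun v => Lv arc s k v ∨ ∃ u, Lv arc s k u ∧ arc u v

theorem lv_all {n s t : ℕ} {arc : ℕ → ℕ → Prop} (ha : ∀ u v, arc u v → u < n ∧ v < n)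
    (h : Relation.ReflTransGen arc s t) : Lv arc s n t := by
  have st : ∀ k, (∀ u v, Lv arc s k u → arc u v → Lv arc s k v) ∨ k ≤ cnt n (Lv arc s k) := by
    intro k
    induction k with
    | zero => exact Or.inr (Nat.zero_le _)
    | succ k ih =>
      by_cases c : ∀ u v, Lv arc s k u → arc u v → Lv arc s k v
      · exact Or.inl fun u v hu k' =>
          Or.inl (c u v (hu.elim id fun ⟨w, h1, h2⟩ => c w u h1 h2) k')
      · have i := ih.resolve_left c
        push Not at c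
        obtain ⟨u, v, h1, h2, h3⟩ := c
        exact Or.inr (i.trans_lt (cnt_lt (fun _ _ k => Or.inl k) (ha u v h2).2
          (Or.inr ⟨u, h1, h2⟩) h3))
  have s0 : ∀ k, Lv arc s k s := fun k => by
    induction k with
    | zero => rfl
    | succ k ih => exact Or.inl ih
  induction h with
  | refl => exact s0 n
  | @tail u v _ k ih =>
    rcases st n with c | c
    · exact c u v ih k
    · by_contra hv
      have := cnt_lt (P := Lv arc s n) (Q := fun _ => True) (fun _ _ _ => trivial) (ha u v k).2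
        trivial hv
      have := cnt_le n fun _ => True
      omega

variable {M : Mp}

theorem wk_pt {q x p r : ℕ} {β : ℕ → ℕ} {us : ℕ → Prop} (hp : p < q) (hr : r < 4)
    (h : Wk (4 * q) r4 β us x (4 * p + r)) {r' : ℕ} (hr' : r' < 4) :
    Wk (4 * q) r4 β us x (4 * p + r') :=
  Sc.ind (n := 4 * q) (f := r4) (Q := fun d => Wk (4 * q) r4 β us x d) Two.pm.1
    (a := 4 * p + r) (by omega) h (fun _ hd k => k.tail ⟨hd, Or.inl rfl⟩)
    ((Two.sc (by omega)).1 (by omega))

theorem sound (h : M.Ok) (K : ConK M) {x y : ℕ}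
    (w : Wk (4 * (2 * len M + 1)) r4 (b0 M) (us0 M) x y)
    (hx : Relation.ReflTransGen M.arc (M.nd M.s) (M.nd (dd M (x / 8)))) :
    Relation.ReflTransGen M.arc (M.nd M.s) (M.nd (dd M (y / 8))) := by
  have rh : ∀ d < M.n, M.nd (M.ρ d) = M.nd d := fun d hd =>
    ((Mp.nd_iff h.pm hd (h.pm.1 d hd)).2 (Sc.step h.pm.1 hd)).symm
  induction w with
  | refl => exact hx
  | @tail u v _ k ih =>
    rcases k with ⟨k, rfl | ⟨k', rfl⟩⟩
    · rwa [show r4 u / 8 = u / 8 by unfold r4; omega]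
    obtain ⟨j, e⟩ : ∃ j, u / 8 = j := ⟨_, rfl⟩
    have l := K.lt j
    unfold us0 at k'
    rw [e] at ih k'
    rcases k' with ⟨k1, k2 | k2⟩ | ⟨k1, k2 | k2⟩ | ⟨k1, k2⟩
    · obtain rfl : u = 4 * (2 * j) := by omega
      rw [b0, Two.b0]
      split_ifs
      · rwa [show (4 * (2 * j + 1) + 2) / 8 = j by omega]
      · rwa [e]
    · rcases Nat.even_or_odd' (u / 4) with ⟨i, e' | e'⟩
      · obtain rfl : u = 4 * (2 * j) := by omega
        rw [b0, Two.b0]
        split_ifs
        · rwa [show (4 * (2 * j + 1) + 2) / 8 = j by omega]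
        · rwa [e]
      · obtain rfl : u = 4 * (2 * j + 1) := by omega
        rw [b0, Two.b0, if_pos (by omega), show (4 * (2 * j + 1 + 1) + 2) / 8 = j + 1 by omega,
          K.succ, ph, (K.sb _ l).resolve_left k2.1, rh _ (h.iv _ l).1]
        exact ih.tail ⟨_, l, k2.2, rfl, rfl⟩
    · obtain rfl : u = 4 * (2 * len M) + 1 := by omega
      rw [b0, Two.b1, up_last, show (4 * (2 * (M.n * per M + ix M M.s)) + 1) / 8 =
        M.n * per M + ix M M.s by omega, ConK.md (j := ix M M.s) (Nat.mul_add_mod_self_right ..),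
        (K.dix ((K.on _).1 k2.2)).2]
    · obtain rfl : u = 4 * (2 * j + 1) + 1 := by omega
      rw [b0, Two.b1, up_odd, show (4 * (2 * upJ M j + 1) + 1) / 8 = upJ M j by omega]
      rcases (K.up j).2.2.2 with r | r
      · rw [r, out]
        split_ifs
        · exact ih.tail ⟨_, l, k2.2, rfl, rfl⟩
        · exact ih
      · rwa [r.1]
    · obtain rfl : u = 4 * (2 * j + 1) + 3 := by omega
      rwa [b0, Two.b3, dn_odd, show (4 * (2 * (dnJ M j + 1)) + 3) / 8 = dnJ M j + 1 by omega,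
        (K.dn j).2, rh _ l]

section
variable (h : M.Ok) (K : ConK M) {x : ℕ} {P : ℕ → Prop}
  (hP : ∀ j, P j ↔ Wk (4 * (2 * len M + 1)) r4 (b0 M) (us0 M) x (4 * (2 * j)))
include K hP

omit K in
theorem st0 {j r : ℕ} (hj : j < len M) (p : P j) (hr : r < 4) :
    Wk (4 * (2 * len M + 1)) r4 (b0 M) (us0 M) x (4 * (2 * j + 1) + r) := by
  refine wk_pt (r := 2) (by omega) (by omega) (((hP j).1 p).tail ⟨by omega, Or.inr ⟨Or.inl
    ⟨by omega, Or.inl (by omega)⟩, ?_⟩⟩) hr
  rw [b0, Two.b0, if_pos (by omega)]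

theorem st3 {j : ℕ} (hj : j < len M)
    (p : Wk (4 * (2 * len M + 1)) r4 (b0 M) (us0 M) x (4 * (2 * j + 1) + 3)) : P (dnJ M j + 1) := by
  have := (K.dn_iv j hj).1
  refine (hP _).2 (wk_pt (p := 2 * (dnJ M j + 1)) (r := 3) (r' := 0) (by omega) (by omega) (p.tail ⟨by omega, Or.inr
    ⟨Or.inr (Or.inr ⟨by omega, by omega⟩), ?_⟩⟩) (by omega))
  rw [b0, Two.b3, dn_odd]

omit hP in
theorem nxt (j : ℕ) : (dnJ M j + 1) / per M = j / per M ∨
    (dnJ M j + 1 = (j / per M + 1) * per M ∧ M.ρ (dd M j) = M.t) := by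
  have d := K.dn j
  have i1 := Nat.div_add_mod' (dnJ M j) (per M)
  have i2 := Nat.mod_lt (dnJ M j) K.pos
  rw [d.1] at i1
  by_cases e : dnJ M j % per M + 1 = per M
  · have e' : dnJ M j + 1 = (j / per M + 1) * per M := by rw [add_mul]; omega
    refine Or.inr ⟨e', ?_⟩
    rw [← d.2, e', ← K.zero]
    exact ConK.md (by simp)
  · refine Or.inl ((Nat.div_eq_iff K.pos).2 ?_)
    omega

include h

theorem rnd {j d : ℕ} (hj : j < len M) (p : P j) (s : Sc M.n M.ρ (dd M j) d) :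
    (∃ i, i / per M = j / per M ∧ dd M i = d ∧ P i) ∨ P ((j / per M + 1) * per M) := by
  refine Sc.ind (Q := fun d => (∃ i, i / per M = j / per M ∧ dd M i = d ∧ P i) ∨
    P ((j / per M + 1) * per M)) h.pm.1 (K.lt j) (Or.inl ⟨j, rfl, rfl, p⟩) (fun d _ k => ?_) s
  rcases k with ⟨i, k1, rfl, k3⟩ | k
  · have hi : i < len M := by
      rwa [len, ← Nat.div_lt_iff_lt_mul K.pos, k1, Nat.div_lt_iff_lt_mul K.pos]
    have q := st3 K hP hi (st0 hP hi k3 (by omega))
    rcases nxt K i with e | e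
    · exact Or.inl ⟨_, e.trans k1, (K.dn i).2, q⟩
    · exact Or.inr (by rwa [← k1, ← e.1])
  · exact Or.inr k

theorem hop {j : ℕ} (hj : j < len M) (p : P j) (e : Sc M.n M.ρ (dd M j) M.t) :
    P ((j / per M + 1) * per M) := by
  have ht : M.t < M.n := K.zero ▸ K.lt 0
  obtain ⟨u, k, r⟩ := h.pm.period ht
  obtain ⟨u, rfl⟩ : ∃ v, u = v + 1 := ⟨u - 1, by omega⟩
  rw [Function.iterate_succ_apply'] at r
  rcases rnd h K hP hj p (e.trans h.pm.1 (K.lt j) ((sc_iff h.pm.1 ht).2 ⟨u, rfl⟩)) with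
    ⟨i, k1, k2, k3⟩ | k
  · have hi : i < len M := by
      rwa [len, ← Nat.div_lt_iff_lt_mul K.pos, k1, Nat.div_lt_iff_lt_mul K.pos]
    have q := st3 K hP hi (st0 hP hi k3 (by omega))
    have z : (dnJ M i + 1) % per M = 0 := by
      rw [← K.ix, (K.dn i).2, k2, r, ← K.zero, K.ix, Nat.zero_mod]
    rcases nxt K i with e | e
    · have i1 := Nat.div_add_mod' (dnJ M i + 1) (per M)
      have i2 := Nat.div_add_mod' (dnJ M i) (per M)
      rw [e] at i1
      rw [(K.dn i).1] at i2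
      omega
    · rwa [← k1, ← e.1]
  · exact k

theorem top {b : ℕ} (hb : b ≤ 2 * M.n + 1) (p : P (b * per M)) : P (len M) := by
  induction hb using Nat.decreasingInduction with
  | self => exact p
  | of_succ b hb ih =>
    have e : dd M (b * per M) = M.t := (ConK.md (j := 0) (by simp)).trans K.zero
    have := hop h K hP (Nat.mul_lt_mul_of_pos_right hb K.pos) p (e ▸ Sc.refl _ (K.lt _))
    rw [Nat.mul_div_cancel _ K.pos] at this
    exact ih this

theorem lift (s : Sc M.n (ph M) M.t M.s) (p : P (M.n * per M + ix M M.s)) : ∀ k ≤ M.n, ∀ v,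
    Lv M.arc (M.nd M.s) k v → P (len M) ∨ ∃ j, M.nd (dd M j) = v ∧ P j ∧
      M.n ≤ j / per M + k ∧ j / per M ≤ M.n + k := by
  intro k
  induction k with
  | zero =>
    rintro _ _ rfl
    have e : (M.n * per M + ix M M.s) / per M = M.n := by
      rw [add_comm, Nat.add_mul_div_right _ _ K.pos, Nat.div_eq_of_lt K.ixs, zero_add]
    refine Or.inr ⟨_, ?_, p, by omega, by omega⟩
    rw [ConK.md (j := ix M M.s) (Nat.mul_add_mod_self_right ..), (K.dix ((K.on _).1 s)).2]
  | succ k ih =>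
    rintro hk v (hv | ⟨u, hu, d, hd, dir, rfl, rfl⟩)
    · exact (ih (by omega) v hv).imp_right fun ⟨j, h1, h2, h3, h4⟩ =>
        ⟨j, h1, h2, by omega, by omega⟩
    rcases ih (by omega) _ hu with t | ⟨j, h1, h2, h3, h4⟩
    · exact Or.inl t
    have hj : j < len M := by
      rw [len, ← Nat.div_lt_iff_lt_mul K.pos]
      omega
    rcases rnd h K hP hj h2 ((Mp.nd_iff h.pm (K.lt j) hd).1 h1) with ⟨i, k1, rfl, k3⟩ | t
    swap
    · exact Or.inl (top h K hP (by omega) t)
    have rh : M.nd (M.ρ (M.β (dd M i))) = M.nd (M.β (dd M i)) :=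
      ((Mp.nd_iff h.pm (h.iv _ hd).1 (h.pm.1 _ (h.iv _ hd).1)).2
        (Sc.step h.pm.1 (h.iv _ hd).1)).symm
    have l1 : per M ≤ i := by
      have := (Nat.le_div_iff_mul_le (x := 1) (y := i) K.pos).1 (by omega)
      omega
    have l2 : i + per M < len M := by
      rw [len, ← Nat.div_lt_iff_lt_mul K.pos, Nat.add_div_right _ K.pos]
      omega
    have dv : ∀ a b, a ≤ b + per M → a / per M ≤ b / per M + 1 := fun a b e => by
      rw [← Nat.add_div_right _ K.pos]
      exact Nat.div_le_div_right e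
    have pos := K.pos
    by_cases tr : ta M (dd M i) = dd M i
    · obtain ⟨-, u1, u2, u3⟩ := K.up i
      have u4 := u3.resolve_right (by omega)
      rw [out, if_pos tr] at u4
      have hu := (K.up_iv i (by omega)).1
      have q := st3 K hP hu (wk_pt (r := 1) (by omega) (by omega)
        ((st0 hP (j := i) (r := 1) (by omega) k3 (by omega)).tail ⟨by omega, Or.inr
          ⟨Or.inr (Or.inl ⟨by omega, Or.inr ⟨by omega, by
            rwa [show (4 * (2 * i + 1) + 1) / 8 = i by omega]⟩⟩), by rw [b0, Two.b1, up_odd]⟩⟩)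
        (by omega))
      have d1 := dv (upJ M i) i (by omega)
      have d2 := dv i (upJ M i) (by omega)
      rcases nxt K (upJ M i) with e | e
      · exact Or.inr ⟨_, by rw [(K.dn _).2, u4, rh], q, by omega, by omega⟩
      · exact Or.inl (top h K hP (by omega) (e.1 ▸ q))
    · have q : P (i + 1) := (hP _).2 (wk_pt (p := 2 * (i + 1)) (r := 2) (r' := 0) (by omega) (by omega)
        ((st0 hP (j := i) (r := 0) (by omega) k3 (by omega)).tail ⟨by omega, Or.inr
          ⟨Or.inl ⟨by omega, Or.inr (by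
            rw [show (4 * (2 * i + 1) + 0) / 8 = i by omega]; exact ⟨tr, dir⟩)⟩, by
            rw [add_zero, b0, Two.b0, if_pos (by omega)]; omega⟩⟩) (by omega))
      have d1 := dv (i + 1) i (by omega)
      have d2 : i / per M ≤ (i + 1) / per M := Nat.div_le_div_right (by omega)
      exact Or.inr ⟨_, by rw [K.succ, ph, (K.sb _ hd).resolve_left tr, rh], q, by omega, by omega⟩

end

theorem redS : RedS := by
  intro M h ht
  have K := conK h ht
  have i1 := up_iv K.up_iv K.c_lt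
  have i2 := dn_iv K.dn_iv
  have iv : Iv (4 * (2 * len M + 1)) (b0 M) := Two.iv i1 i2
  have e1 : cells M = 2 * (4 * (2 * len M + 1)) := by unfold cells; omega
  have e2 : 2 * e0 M = 4 * (4 * (2 * len M) + 1) := by unfold e0; omega
  have pm : Pm (2 * cells M) (rho M) := e1 ▸ gad_pm Two.pm iv
  have pl : Pl (2 * cells M) (rho M) fl := by
    refine Two.Col.pl ?_ pm (fl_iv _)
    rw [e1]
    exact gad_col Two.pm iv (Two.col i1 i2 (up_nc K.up_iv K.up_nc K.c_lt fun j _ => (K.up j).1)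
      (dn_nc K.dn_iv K.dn_nc))
  refine ⟨pm, pl, Pl.gen pl pm (fl_iv _), by unfold e0 cells; omega, ?_⟩
  have eb : b0 M (4 * (2 * len M) + 1) = 4 * (2 * (M.n * per M + ix M M.s)) + 1 := by
    rw [b0, Two.b1, up_last]
  have eu : us0 M (4 * (2 * len M) + 1) ↔ Sc M.n (ph M) M.t M.s := by
    unfold us0
    refine ⟨?_, fun k => Or.inr (Or.inl ⟨by omega, Or.inl ⟨by omega, k⟩⟩)⟩
    rintro (⟨k, -⟩ | ⟨-, ⟨-, k⟩ | ⟨k, -⟩⟩ | ⟨k, -⟩)
    exacts [by omega, k, by omega, by omega]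
  have el : dd M (len M) = M.t := (ConK.md (j := 0) (by simp [len])).trans K.zero
  have c := K.c_lt
  rw [e2, e1, rho, gad_go Two.pm iv (by omega), eb, eu]
  constructor
  · intro r
    have cn : ∀ v, Relation.ReflTransGen M.arc (M.nd M.s) v → Conn M.n M.ρ M.β M.s v := by
      intro v k
      induction k with
      | refl => exact Sc.conn' _ h.pm h.s (Mp.nd_spec h.s).2
      | tail _ k ih =>
        obtain ⟨d, hd, -, rfl, rfl⟩ := k
        exact (ih.trans (Sc.conn' _ h.pm hd (Mp.nd_spec hd).2).symm).trans ((Conn.gam _ _ hd).trans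
          (Sc.conn' _ h.pm (h.iv d hd).1 (Mp.nd_spec (h.iv d hd).1).2))
    have s : Sc M.n (ph M) M.t M.s := (K.on _).2 ((K.conn _ _ ((cn _ r).trans
      (Sc.conn' _ h.pm ht (Mp.nd_spec ht).2).symm)).2 ⟨0, K.zero⟩)
    refine ⟨s, wk_pt (r := 0) (by omega) (by omega) ?_ (by omega)⟩
    have hP : ∀ j, (fun j => Wk (4 * (2 * len M + 1)) r4 (b0 M) (us0 M)
        (4 * (2 * (M.n * per M + ix M M.s)) + 1) (4 * (2 * j))) j ↔ _ := fun _ => Iff.rfl
    rcases lift h K hP s (wk_pt (r := 1) (r' := 0) (by omega) (by omega) .refl (by omega)) M.n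
      le_rfl _ (lv_all (Mp.arc_lt h.iv) r) with t | ⟨j, h1, h2, -, h4⟩
    · exact t
    · exact top h K hP (by omega) (hop h K hP (by
        rw [len, ← Nat.div_lt_iff_lt_mul K.pos]; omega) h2 ((Mp.nd_iff h.pm (K.lt j) ht).1 h1))
  · rintro ⟨s, w⟩
    have := sound h K w (by
      rw [show (4 * (2 * (M.n * per M + ix M M.s)) + 1) / 8 = M.n * per M + ix M M.s by omega,
        ConK.md (j := ix M M.s) (Nat.mul_add_mod_self_right ..), (K.dix ((K.on _).1 s)).2])
    rwa [show (4 * (2 * len M) + 1) / 8 = len M by omega, el] at this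

end Pool.Agent.MP_1a6d78_lc.PL

end MrgPart0

-- ======== part 1: formerly Pool.Agent.MP_1a6d78_lc.PL.Comp
section MrgPart1

/-! PROJECT PSC, row RED, part 5: the cover is computable; the reduction of the input. -/

namespace Pool.Agent.MP_1a6d78_lc.PL

open Classical ED PR

theorem inpC (κ : List Bool → ℕ) : Mp.C κ inp := by
  have num : ∀ {a : List Bool → Env → ℕ}, Cn κ a → Cn κ fun x ρ => num x (a x ρ) :=
    AlgD.numC (kitOne _) (kitTwo _)
  have hn : Cn κ fun x _ => (inp x).n := num (K.c 0)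
  exact ⟨hn, num (K.add (K.c 3) (K.v 0)), num (K.add (K.add (K.c 3) hn) (K.v 0)),
    K.eq (num (K.add (K.add (K.add (K.c 3) hn) hn) (K.v 0))) (K.c 1), num (K.c 1), num (K.c 2)⟩

theorem num_le (x : List Bool) (i : ℕ) : num x i ≤ x.length := by
  refine (Finset.sum_le_card_nsmul _ _ 1 fun p _ => ?_).trans (by simp)
  unfold bit
  split_ifs <;> omega

theorem redC : RedC := by
  intro κ
  obtain ⟨hn, hρ, hβ, hdir, hs, ht⟩ := inpC κ
  have nd : F1 κ fun x _ => (inp x).nd :=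
    K.lst (P := fun x ρ => Sc (inp x).n (inp x).ρ (hd (ρ 0))) hn (K.sc hn hρ (K.v 1) (K.v 0))
  have ta : F1 κ fun x _ => ta (inp x) :=
    ((aFm κ).1 (fun x => fm (inp x)) ⟨hn, hρ, hβ, nd, hn, K.c 0⟩).1
  have ph : F1 κ fun x _ => ph (inp x) := by
    have := K.app hρ ta
    exact this
  have per : Cn κ fun x _ => per (inp x) :=
    K.lst (P := fun x _ k => 0 < k ∧ it (inp x).n (PL.ph (inp x)) k (inp x).t = (inp x).t)
      (K.add hn (K.c 1)) (K.and (K.lt (K.c 0) (K.v 0)) (K.eq (K.it hn ph (K.v 0) ht) ht))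
  have dd : F1 κ fun x _ => dd (inp x) := K.it hn ph (K.mod (K.v 0) per) ht
  have ix : F1 κ fun x _ => ix (inp x) :=
    K.lst (P := fun x ρ k => it (inp x).n (PL.ph (inp x)) k (inp x).t = hd (ρ 0)) hn
      (K.eq (K.it hn ph (K.v 0) ht) (K.v 1))
  have len : Cn κ fun x _ => len (inp x) := K.mul (K.add (K.mul (K.c 2) hn) (K.c 1)) per
  have bl : ∀ {o : List Bool → ℕ → ℕ}, (F1 κ fun x _ => o x) →
      F1 κ fun x _ => blk (PL.per (inp x)) (o x) := fun h =>
    K.add (K.mul (K.div (K.v 0) per) per) (K.app h (K.mod (K.v 0) per))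
  have dn : F1 κ fun x _ => dnJ (inp x) :=
    bl (o := fun x r => PL.ix (inp x) (PL.ta (inp x) (PL.dd (inp x) r))) (K.app ix (K.app ta dd))
  have a : Cn κ fun x _ => PL.ix (inp x) (inp x).s := K.app ix hs
  have ou : F1 κ fun x _ => out (inp x).β (PL.ta (inp x)) := K.ite (K.eq ta (K.v 0)) hβ (K.v 0)
  have oo := K.app ix (K.app ou (K.app dd (K.mod (K.add (K.v 0) a) per)))
  have ro := K.app (bl (o := fun x => rot (PL.per (inp x)) (PL.ix (inp x) (inp x).s) fun r =>
    PL.ix (inp x) (out (inp x).β (PL.ta (inp x)) (PL.dd (inp x) r)))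
    (K.ite (K.le a oo) (K.sub oo a) (K.sub (K.add oo per) a))) (K.add (K.v 0) (K.sub per a))
  have up : F1 κ fun x _ => upJ (inp x) :=
    K.ite (K.and (K.le (K.sub per a) ro) (K.lt ro (K.add (K.sub per a) len)))
      (K.sub ro (K.sub per a)) (K.v 0)
  have c := K.mul (K.c 2) (K.add (K.mul hn per) a)
  have l2 := K.mul (K.c 2) len
  have od : Cp κ fun _ ρ => hd (ρ 0) % 2 = 1 := K.eq (K.mod (K.v 0) (K.c 2)) (K.c 1)
  have uP : F1 κ fun x _ => upP (PL.len (inp x))
      ((inp x).n * PL.per (inp x) + PL.ix (inp x) (inp x).s) (upJ (inp x)) :=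
    K.ite (K.eq (K.v 0) l2) c (K.ite (K.eq (K.v 0) c) l2 (K.ite od
      (K.add (K.mul (K.c 2) (K.app up (K.div (K.v 0) (K.c 2)))) (K.c 1)) (K.v 0)))
  have dP : F1 κ fun x _ => dnP (dnJ (inp x)) :=
    K.ite (K.eq (K.v 0) (K.c 0)) (K.c 0) (K.ite od
      (K.add (K.mul (K.c 2) (K.app dn (K.div (K.v 0) (K.c 2)))) (K.c 2))
      (K.add (K.mul (K.c 2) (K.app dn (K.sub (K.div (K.v 0) (K.c 2)) (K.c 1)))) (K.c 1)))
  have m4 : ∀ r, Cp κ fun _ ρ => hd (ρ 0) % 4 = r := fun r => K.eq (K.mod (K.v 0) (K.c 4)) (K.c r)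
  have d4 : Cn κ fun _ ρ => hd (ρ 0) / 4 := K.div (K.v 0) (K.c 4)
  have b : F1 κ fun x _ => b0 (inp x) :=
    K.ite (m4 0) (K.ite (K.lt (K.add d4 (K.c 1)) (K.add l2 (K.c 1))) (K.add (K.v 0) (K.c 6)) (K.v 0))
      (K.ite (m4 1) (K.add (K.mul (K.c 4) (K.app uP d4)) (K.c 1)) (K.ite (m4 2)
        (K.ite (K.lt (K.c 0) d4) (K.sub (K.v 0) (K.c 6)) (K.v 0))
        (K.add (K.mul (K.c 4) (K.app dP d4)) (K.c 3))))
  have d8 := K.app dd (K.div (K.v 0) (K.c 8))
  have p2 : ∀ r, Cp κ fun _ ρ => hd (ρ 0) / 4 % 2 = r := fun r => K.eq (K.mod d4 (K.c 2)) (K.c r)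
  have us : P1 κ fun x _ => us0 (inp x) :=
    K.or (K.and (m4 0) (K.or (p2 0) (K.and (K.ne (K.app ta d8) d8) (K.appP hdir d8))))
      (K.or (K.and (m4 1) (K.or (K.and (K.eq d4 l2) (K.sc hn ph ht hs))
        (K.and (p2 1) (K.appP hdir d8)))) (K.and (m4 3) (p2 1)))
  have a2 := K.add (K.mul (K.c (κ := κ) 4) (K.v 0)) (K.c 2)
  have a3 := K.add (K.mul (K.c (κ := κ) 4) (K.v 0)) (K.c 3)
  have fa : F1 κ fun x _ => far (us0 (inp x)) := K.ite us a3 a2
  have mi : F1 κ fun x _ => mid (us0 (inp x)) := K.ite us a2 a3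
  have r : F1 κ fun _ _ => r4 :=
    K.add (K.mul (K.c 4) d4) (K.mod (K.add (K.v 0) (K.c 1)) (K.c 4))
  have rh : F1 κ fun x _ => rho (inp x) :=
    K.ite (m4 0) (K.app fa (K.app b (K.app r d4))) (K.ite (m4 1) (K.app mi d4)
      (K.ite (K.eq (K.v 0) (K.app fa d4)) (K.mul (K.c 4) (K.app b d4))
        (K.add (K.mul (K.c 4) d4) (K.c 1))))
  have ce : Cn κ fun x _ => cells (inp x) := K.mul (K.c 8) (K.add l2 (K.c 1))
  refine ⟨ce, rh, K.add (K.mul (K.c 16) len) (K.c 2), K.ite (K.eq (K.mod (K.v 0) (K.c 2)) (K.c 0))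
    (K.add (K.mul (K.c 2) (K.app rh (K.div (K.v 0) (K.c 2)))) (K.c 1)) (K.mul (K.c 2)
      (K.lst (P := fun x ρ d => rho (inp x) d = hd (ρ 0) / 2) (K.mul (K.c 2) ce)
        (K.eq rh (K.div (K.v 1) (K.c 2))))), fun x => ?_⟩
  have h1 : (inp x).n ≤ x.length := num_le x 0
  have h2 : PL.per (inp x) < (inp x).n + 1 := lst_lt _ (Nat.succ_pos _)
  have h3 : PL.len (inp x) ≤ (2 * x.length + 1) * x.length := Nat.mul_le_mul (by omega) (by omega)
  have h4 : (6 * x.length + 8) ^ 2 ≤ ((x.length + 2) ^ 3) ^ 2 :=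
    Nat.pow_le_pow_left (by nlinarith [Nat.zero_le (x.length ^ 3), Nat.zero_le (x.length ^ 2)]) 2
  rw [← pow_mul] at h4
  refine le_trans ?_ h4
  unfold cells
  nlinarith

/-- The reduction of the input: reachability is the question whether the marked cell of a plane
map of cells lies on a directed cycle. -/
theorem red_code {n : ℕ} (σ α : Equiv.Perm (Fin n)) (dir : Fin n → Bool) (s t : Fin n)
    (h1 : α * α = 1) (h2 : Planar σ α) {x : List Bool} (hx : x = code σ α dir s t) :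
    Pm (2 * cells (inp x)) (rho (inp x)) ∧ Pl (2 * cells (inp x)) (rho (inp x)) fl ∧
      gen (2 * cells (inp x)) (rho (inp x)) fl = 0 ∧ e0 (inp x) < cells (inp x) ∧
      (Reach σ α dir s t ↔
        Go (cells (inp x)) (rho (inp x)) (2 * e0 (inp x) + 1) (2 * e0 (inp x))) := by
  subst hx
  obtain ⟨r, k⟩ := codS σ α dir s t
  obtain ⟨e1, e2, e3⟩ := eulS σ α dir s t _ r h1 h2
  rw [k _ r]
  exact redS _ ⟨e1, e2, (genK swapK nclK).pl e1 e2 e3.le, by rw [r.s, r.hn]; exact s.2⟩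
    (by rw [r.t, r.hn]; exact t.2)

end Pool.Agent.MP_1a6d78_lc.PL

end MrgPart1

-- ======== part 2: formerly Pool.Agent.MP_1a6d78_lc.PL.Med
section MrgPart2

/-! PROJECT PSC: planarity of maps of cells in terms of ports. -/

namespace Pool.Agent.MP_1a6d78_lc.PL

open Classical ED PR

/-- The map with `n` cells and the links `lk` on the ports `4 c + q` is plane. -/
def Pln (n : ℕ) (lk : ℕ → ℕ) : Prop := Two.Col (4 * n) r4 lk

variable {n : ℕ} {ρ lk lk' pr : ℕ → ℕ} {al : ℕ → Prop}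

theorem Pln.col (h : Pln n lk) {z : ℕ → ZMod 2} (hz : Two.Ez (4 * n) lk z)
    (e : ∀ a < n, z (4 * a) + z (4 * a + 1) + z (4 * a + 2) + z (4 * a + 3) = 0) :
    ∃ c : ℕ → ZMod 2, ∀ p < 4 * n, c (r4 p) = c p + z p ∧ c (lk p) = c p + z p := by
  refine h z (fun p => ∑ q ∈ Finset.range (p % 4), z (4 * (p / 4) + q)) hz fun d hd => ?_
  have s : ∀ a, ∀ q < 4, ∑ r ∈ Finset.range ((4 * a + q) % 4), z (4 * ((4 * a + q) / 4) + r) =
      ∑ r ∈ Finset.range q, z (4 * a + r) := fun a q hq => by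
    rw [show (4 * a + q) / 4 = a by omega, show (4 * a + q) % 4 = q by omega]
  have s0 : ∀ a, ∑ r ∈ Finset.range (4 * a % 4), z (4 * (4 * a / 4) + r) = 0 := fun a => by
    rw [show 4 * a % 4 = 0 by omega, Finset.sum_range_zero]
  obtain ⟨a, ha, rfl | rfl | rfl | rfl⟩ := Two.cases4 hd
  · rw [Two.r0, s a 1 (by omega), s0]; simp
  · rw [Two.r1, s a 1 (by omega), s a 2 (by omega), Finset.sum_range_succ]
  · rw [Two.r2, s a 2 (by omega), s a 3 (by omega), Finset.sum_range_succ]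
  · rw [Two.r3, s a 3 (by omega), s0]
    simp only [Finset.sum_range_succ, Finset.sum_range_zero, zero_add, add_zero]
    exact (e a ha).symm

theorem red_col {M : Mp} (h : M.Ok) (ht : M.t < M.n) : Two.Col (2 * cells M) (rho M) fl := by
  have K := conK h ht
  have i1 := up_iv K.up_iv K.c_lt
  have i2 := dn_iv K.dn_iv
  rw [show cells M = 2 * (4 * (2 * len M + 1)) by unfold cells; omega]
  exact gad_col Two.pm (Two.iv i1 i2) (Two.col i1 i2
    (up_nc K.up_iv K.up_nc K.c_lt fun j _ => (K.up j).1) (dn_nc K.dn_iv K.dn_nc))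

theorem r4_even (d : ℕ) : r4 (2 * d) = 2 * d + 1 := by unfold r4; omega

theorem r4_odd (d : ℕ) : r4 (2 * d + 1) = 2 * fl d := by unfold r4 fl; split_ifs <;> omega

/-- MED -/
theorem med (p : Pm (2 * n) ρ) (h : Two.Col (2 * n) ρ fl) : Pln n (lam n ρ) := by
  intro z y hz hy
  obtain ⟨iv, l0, l1⟩ := lam_iv p
  have z1 : ∀ d < 2 * n, z (2 * ρ d + 1) = z (2 * d) := fun d hd => by
    rw [← l0, (hz _ (by omega)).1]
  have y2 : ∀ d < 2 * n, y (2 * fl d) = y (2 * d) + (z (2 * d) + z (2 * d + 1)) := fun d hd => by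
    rw [← r4_odd, hy _ (by omega), ← r4_even, hy _ (by omega), r4_even, add_assoc]
  obtain ⟨c, hc⟩ := h (fun d => z (2 * d) + z (2 * d + 1)) (fun d => z (2 * d + 1))
    (fun d hd => ⟨by
      have i1 := y2 d hd
      have i2 := y2 _ (fl_iv n d hd).1
      rw [(fl_iv n d hd).2] at i2
      linear_combination -i1 - i2 - Two.z2 (z (2 * d) + z (2 * d + 1)),
      fun e => by unfold fl at e; split_ifs at e <;> omega⟩)
    fun d hd => by rw [z1 d hd]; linear_combination -Two.z2 (z (2 * d + 1))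
  obtain ⟨e, he⟩ : ∃ e : ℕ → ZMod 2, ∀ q, e q =
      if q % 2 = 0 then c (fl (q / 2)) else c (fl (q / 2)) + z (2 * (q / 2)) := ⟨_, fun _ => rfl⟩
  have e0 : ∀ d, e (2 * d) = c (fl d) := fun d => by
    rw [he, if_pos (by omega), Nat.mul_div_cancel_left _ two_pos]
  have e1 : ∀ d, e (2 * d + 1) = c (fl d) + z (2 * d) := fun d => by
    rw [he, if_neg (by omega), show (2 * d + 1) / 2 = d by omega]
  have k : ∀ d < 2 * n, e (2 * ρ d + 1) = e (2 * d) + z (2 * d) := fun d hd => by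
    rw [e1, e0, (hc _ (p.1 d hd)).2, (hc d hd).1, (hc d hd).2, z1 d hd]
    linear_combination Two.z2 (z (2 * ρ d))
  refine ⟨e, fun q hq => ?_⟩
  rcases Nat.even_or_odd' q with ⟨d, rfl | rfl⟩
  · exact ⟨by rw [r4_even, e1, e0], by rw [l0, k d (by omega)]⟩
  · have hd : d < 2 * n := by omega
    refine ⟨?_, ?_⟩
    · rw [r4_odd, e1, e0, (fl_iv n d hd).2, (hc d hd).2]
      linear_combination -Two.z2 (z (2 * d)) - Two.z2 (z (2 * d + 1))
    · obtain ⟨u, k1, r⟩ := p.period hd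
      obtain ⟨u, rfl⟩ : ∃ v, u = v + 1 := ⟨u - 1, by omega⟩
      rw [Function.iterate_succ_apply'] at r
      have l := iter_inv (Q := fun a => a < 2 * n) p.1 hd u
      rw [← r, l1 _ l, k _ l, z1 _ l]
      linear_combination -Two.z2 (z (2 * ρ^[u] d))

/-- The map of the reduction is plane. -/
theorem med_code {m : ℕ} (σ α : Equiv.Perm (Fin m)) (dir : Fin m → Bool) (s t : Fin m)
    (h1 : α * α = 1) (h2 : Planar σ α) {x : List Bool} (hx : x = code σ α dir s t) :
    Pln (cells (inp x)) (lam (cells (inp x)) (rho (inp x))) := by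
  refine med (red_code σ α dir s t h1 h2 hx).1 ?_
  subst hx
  obtain ⟨r, -⟩ := codS σ α dir s t
  obtain ⟨e1, e2, e3⟩ := eulS σ α dir s t _ r h1 h2
  exact red_col ⟨e1, e2, (genK swapK nclK).pl e1 e2 e3.le, by rw [r.s, r.hn]; exact s.2⟩
    (by rw [r.t, r.hn]; exact t.2)

/-- The curve that leaves by the port `x` ends at the port `r` of a cell with `al`; at the other
cells it goes on with the partner `pr`. -/
inductive Cv (lk pr : ℕ → ℕ) (al : ℕ → Prop) : ℕ → ℕ → Prop
  | stop {x : ℕ} : al (lk x / 4) → Cv lk pr al x (lk x)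
  | go {x r : ℕ} : ¬al (lk x / 4) → Cv lk pr al (pr (lk x)) r → Cv lk pr al x r

theorem Cv.uniq {x r r' : ℕ} (h : Cv lk pr al x r) (h' : Cv lk pr al x r') : r = r' := by
  induction h with
  | stop k =>
    cases h' with
    | stop _ => rfl
    | go k' _ => exact absurd k k'
  | go k _ ih =>
    cases h' with
    | stop k' => exact absurd k' k
    | go _ k' => exact ih k'

/-- SMOOTH: every smoothing of a plane map is plane. -/
theorem smooth (h : Pln n lk) (iv : Iv (4 * n) lk)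
    (par : ∀ p < 4 * n, lk p = p ∨ (lk p + p) % 2 = 1)
    (h0 : ∀ p < 4 * n, lk p = p → ¬al (p / 4) ∧ lk (pr p) = pr p)
    (h1 : ∀ p < 4 * n, ¬al (p / 4) → pr (pr p) = p ∧ (pr p = r4 p ∨ p = r4 (pr p)) ∧ lk' p = p)
    (h2 : ∀ p < 4 * n, al (p / 4) → Cv lk pr al p (lk' p)) : Pln n lk' := by
  intro z y hz hy
  obtain ⟨f, hf⟩ : ∃ f : ℕ → ZMod 2, ∀ x, f x =
      if k : ∃ r, Cv lk pr al x r then z k.choose else 0 := ⟨_, fun _ => rfl⟩
  have f1 : ∀ x r, Cv lk pr al x r → f x = z r := fun x r k => by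
    rw [hf, dif_pos ⟨r, k⟩, (Exists.choose_spec ⟨r, k⟩).uniq k]
  have f2 : ∀ x, ¬al (lk x / 4) → f x = f (pr (lk x)) := fun x k => by
    by_cases e : ∃ r, Cv lk pr al (pr (lk x)) r
    · obtain ⟨r, e⟩ := e
      rw [f1 _ _ e, f1 _ _ (.go k e)]
    · rw [hf, hf, dif_neg e, dif_neg]
      rintro ⟨r, u⟩
      cases u with
      | stop u => exact k u
      | go _ u => exact e ⟨_, u⟩
  have pc : ∀ p < 4 * n, ¬al (p / 4) → pr p / 4 = p / 4 ∧ (pr p + p) % 2 = 1 := fun p hp k => by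
    have := (h1 p hp k).2.1
    unfold r4 at this
    omega
  obtain ⟨w, hw⟩ : ∃ w : ℕ → ZMod 2, ∀ p, w p = if p % 2 = 0 then f p else f (lk p) :=
    ⟨_, fun _ => rfl⟩
  have wa : ∀ p < 4 * n, al (p / 4) → w p = z p := fun p hp k => by
    rw [hw]
    split_ifs
    · rw [f1 _ _ (h2 p hp k), (hz p hp).1]
    · have := f1 (lk p) _ (.stop (by rwa [(iv p hp).2]))
      rwa [(iv p hp).2] at this
  have wd : ∀ p < 4 * n, ¬al (p / 4) → w (pr p) = w p := by
    have key : ∀ p < 4 * n, ¬al (p / 4) → p % 2 = 1 → w (pr p) = w p := fun p hp k o => by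
      have := pc p hp k
      rw [hw, hw, if_pos (by omega), if_neg (by omega), f2 (lk p) (by rwa [(iv p hp).2]),
        (iv p hp).2]
    intro p hp k
    have := pc p hp k
    rcases Nat.mod_two_eq_zero_or_one p with o | o
    · rw [← key (pr p) (by omega) (by rwa [this.1]) (by omega), (h1 p hp k).1]
    · exact key p hp k o
  have cw : ∀ c : ℕ → ZMod 2, (∀ p < 4 * n, c (r4 p) = c p + w p) → ∀ p < 4 * n, ¬al (p / 4) →
      c (pr p) = c p + w p := fun c hc p hp k => by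
    have := pc p hp k
    rcases (h1 p hp k).2.1 with e | e
    · rw [e, hc p hp]
    · have := hc (pr p) (by omega)
      rw [← e, wd p hp k] at this
      rw [this, add_assoc, Two.z2, add_zero]
  have ez : Two.Ez (4 * n) lk w := fun p hp => by
    by_cases e : lk p = p
    · have k := (h0 p hp e).1
      have : f p = 0 := by
        rw [hf, dif_neg]
        rintro ⟨r, u'⟩
        have no : ∀ x r, Cv lk pr al x r → ¬(x = p ∨ x = pr p) := fun x r u => by
          induction u with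
          | stop u =>
            rintro (rfl | rfl)
            · exact k (by rwa [e] at u)
            · exact k (by rwa [(h0 p hp e).2, (pc p hp k).1] at u)
          | go _ _ ih =>
            rintro (rfl | rfl)
            · exact ih (Or.inr (by rw [e]))
            · exact ih (Or.inl (by rw [(h0 p hp e).2, (h1 p hp k).1]))
        exact no _ _ u' (Or.inl rfl)
      rw [e, hw, e, ite_self]
      exact ⟨rfl, fun _ => this⟩
    · have := (par p hp).resolve_left e
      refine ⟨?_, fun u => absurd u e⟩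
      rw [hw, hw, (iv p hp).2]
      split_ifs <;> first | rfl | omega
  obtain ⟨c, hc⟩ := h.col ez fun a ha => by
    by_cases k : al a
    · have i : ∀ q < 4, w (4 * a + q) = z (4 * a + q) := fun q hq =>
        wa _ (by omega) (by rwa [show (4 * a + q) / 4 = a by omega])
      have a0 := hy (4 * a) (by omega)
      have a1 := hy (4 * a + 1) (by omega)
      have a2 := hy (4 * a + 2) (by omega)
      have a3 := hy (4 * a + 3) (by omega)
      rw [Two.r0] at a0
      rw [Two.r1] at a1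
      rw [Two.r2] at a2
      rw [Two.r3] at a3
      have i0 : w (4 * a) = z (4 * a) := i 0 (by omega)
      rw [i0, i 1 (by omega), i 2 (by omega), i 3 (by omega)]
      linear_combination -a0 - a1 - a2 - a3
    · have k0 : ¬al (4 * a / 4) := by rwa [show 4 * a / 4 = a by omega]
      have k2 : ¬al ((4 * a + 2) / 4) := by rwa [show (4 * a + 2) / 4 = a by omega]
      have i0 := wd _ (by omega) k0
      have i2 := wd _ (by omega) k2
      have j0 := pc _ (by omega) k0
      have j2 := pc _ (by omega) k2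
      have ne : pr (4 * a) ≠ pr (4 * a + 2) := fun e => by
        have := (h1 _ (by omega) k0).1
        rw [e, (h1 _ (by omega) k2).1] at this
        omega
      rcases (by omega : (pr (4 * a) = 4 * a + 1 ∧ pr (4 * a + 2) = 4 * a + 3) ∨
        (pr (4 * a) = 4 * a + 3 ∧ pr (4 * a + 2) = 4 * a + 1)) with e | e <;>
      rw [e.1] at i0 <;> rw [e.2] at i2 <;> rw [i0, i2] <;>
      linear_combination Two.z2 (w (4 * a)) + Two.z2 (w (4 * a + 2))
  have cv : ∀ x r, Cv lk pr al x r → x < 4 * n → al (r / 4) ∧ c r = c x + w x := fun x r k => by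
    induction k with
    | stop k => exact fun hx => ⟨k, (hc _ hx).2⟩
    | @go x r k _ ih =>
      intro hx
      have l := (iv x hx).1
      have := pc _ l k
      obtain ⟨i1, i2⟩ := ih (by omega)
      refine ⟨i1, ?_⟩
      rw [i2, cw c (fun p hp => (hc p hp).1) _ l k, wd _ l k, add_assoc, Two.z2, add_zero,
        (hc x hx).2]
  refine ⟨fun p => if al (p / 4) then c p else 0, fun p hp => ?_⟩
  have e : r4 p / 4 = p / 4 := by unfold r4; omega
  by_cases k : al (p / 4)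
  · have := cv _ _ (h2 p hp k) hp
    simp only [e, if_pos k, if_pos this.1, this.2, (hc p hp).1, wa p hp k, and_self]
  · simp only [e, (h1 p hp k).2.2, if_neg k, (hz p hp).2 (h1 p hp k).2.2, add_zero, and_self]

theorem loc {i e : ℕ} (hi : i < 4) (he : e = (i + 1) % 4 ∨ e = (i + 3) % 4) (f : ℕ → ZMod 2)
    (h1 : f 1 = f 0 + if 0 = i ∨ 0 = e then 1 else 0)
    (h2 : f 2 = f 1 + if 1 = i ∨ 1 = e then 1 else 0)
    (h3 : f 3 = f 2 + if 2 = i ∨ 2 = e then 1 else 0) : f e + 1 = f i ∧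
      ∀ q < 4, q ≠ i → q ≠ e → f q = f i + if e = (i + 1) % 4 then 0 else 1 := by
  have z : ∀ x : ZMod 2, x + 1 + 1 = x := by decide
  rcases he with rfl | rfl <;> interval_cases i <;> refine ⟨?_, fun q hq _ _ => ?_⟩ <;>
    (try interval_cases q) <;> simp_all

/-- SIDE: a colouring of the ports for a union `R` of cycles that leave by the port `i` and enter
by the port `en`. -/
theorem side (h : Pln n lk) (iv : Iv (4 * n) lk) {R : ℕ → Prop} {i : ℕ} {en nx : ℕ → ℕ}
    (hi : i < 4) (h1 : ∀ a, R a → a < n ∧ R (nx a) ∧ lk (4 * a + i) = 4 * nx a + en (nx a))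
    (h2 : ∀ b, R b → (en b = (i + 1) % 4 ∨ en b = (i + 3) % 4) ∧ ∃ a, R a ∧ nx a = b) :
    ∃ col : ℕ → ZMod 2,
      (∀ p < 4 * n, ¬(R (p / 4) ∧ (p % 4 = i ∨ p % 4 = en (p / 4))) → col (lk p) = col p) ∧
      (∀ a < n, ¬R a → ∀ q < 4, col (4 * a + q) = col (4 * a)) ∧
      (∀ a, R a → col (4 * nx a + i) = col (4 * a + i)) ∧
      ∀ a, R a → ∀ q < 4, q ≠ i → q ≠ en a →
        col (4 * a + q) = col (4 * a + i) + if en a = (i + 1) % 4 then 0 else 1 := by
  obtain ⟨U, hU⟩ : ∃ U : ℕ → Prop, ∀ p, U p ↔ R (p / 4) ∧ (p % 4 = i ∨ p % 4 = en (p / 4)) :=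
    ⟨_, fun _ => Iff.rfl⟩
  have uq : ∀ a, ∀ q < 4, U (4 * a + q) ↔ R a ∧ (q = i ∨ q = en a) := fun a q hq => by
    rw [hU, show (4 * a + q) / 4 = a by omega, show (4 * a + q) % 4 = q by omega]
  have u1 : ∀ p < 4 * n, U p → U (lk p) ∧ lk p ≠ p := fun p hp k => by
    obtain ⟨a, q, hq, rfl⟩ : ∃ a q, q < 4 ∧ p = 4 * a + q := ⟨p / 4, p % 4, by omega, by omega⟩
    obtain ⟨k1, rfl | rfl⟩ := (uq a q hq).1 k
    · obtain ⟨-, k2, k3⟩ := h1 a k1
      have := (h2 _ k2).1
      rw [k3, uq _ _ (by omega)]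
      exact ⟨⟨k2, Or.inr rfl⟩, by omega⟩
    · obtain ⟨k2, b, k3, rfl⟩ := h2 a k1
      have := h1 b k3
      rw [← this.2.2, (iv _ (by omega)).2, uq _ _ hi, this.2.2]
      exact ⟨⟨k3, Or.inl rfl⟩, by omega⟩
  obtain ⟨w, hw⟩ : ∃ w : ℕ → ZMod 2, ∀ p, w p = if U p then 1 else 0 := ⟨_, fun _ => rfl⟩
  have wq : ∀ a, ∀ q < 4, w (4 * a + q) = if R a ∧ (q = i ∨ q = en a) then 1 else 0 :=
    fun a q hq => by rw [hw]; exact if_congr (uq a q hq) rfl rfl
  have w0 : ∀ a, w (4 * a) = if R a ∧ (0 = i ∨ 0 = en a) then 1 else 0 := fun a => wq a 0 (by omega)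
  obtain ⟨c, hc⟩ := h.col (z := w) (fun p hp => ⟨by
      rw [hw, hw]
      refine if_congr ⟨fun k => ?_, fun k => (u1 p hp k).1⟩ rfl rfl
      have := (u1 _ (iv p hp).1 k).1
      rwa [(iv p hp).2] at this,
    fun e => by rw [hw, if_neg fun k => (u1 p hp k).2 e]⟩) fun a ha => by
      rw [w0, wq a 1 (by omega), wq a 2 (by omega), wq a 3 (by omega)]
      by_cases k : R a
      · have := (h2 a k).1
        generalize en a = e at *
        simp only [k, true_and]
        rcases this with rfl | rfl <;> interval_cases i <;> decide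
      · simp [k]
  have cs : ∀ a < n, c (4 * a + 1) = c (4 * a) + w (4 * a) ∧
      c (4 * a + 2) = c (4 * a + 1) + w (4 * a + 1) ∧
      c (4 * a + 3) = c (4 * a + 2) + w (4 * a + 2) := fun a ha =>
    ⟨Two.r0 a ▸ (hc _ (by omega)).1, Two.r1 a ▸ (hc _ (by omega)).1, Two.r2 a ▸ (hc _ (by omega)).1⟩
  have ring : ∀ a, R a → c (4 * a + en a) + 1 = c (4 * a + i) ∧ ∀ q < 4, q ≠ i → q ≠ en a →
      c (4 * a + q) = c (4 * a + i) + if en a = (i + 1) % 4 then 0 else 1 := fun a k => by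
    obtain ⟨c1, c2, c3⟩ := cs a (h1 a k).1
    rw [w0] at c1
    rw [wq a 1 (by omega)] at c2
    rw [wq a 2 (by omega)] at c3
    simp only [k, true_and] at c1 c2 c3
    exact loc hi (h2 a k).1 (fun q => c (4 * a + q)) c1 c2 c3
  refine ⟨c, fun p hp k => by rw [(hc p hp).2, hw, if_neg (by rwa [hU]), add_zero],
    fun a ha k q hq => ?_, fun a k => ?_, fun a k => (ring a k).2⟩
  · obtain ⟨c1, c2, c3⟩ := cs a ha
    rw [w0] at c1
    rw [wq a 1 (by omega), c1] at c2
    rw [wq a 2 (by omega), c2] at c3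
    simp only [k, false_and, if_false, add_zero] at c1 c2 c3
    interval_cases q
    exacts [rfl, c1, c2, c3]
  · obtain ⟨k1, k2, k3⟩ := h1 a k
    have i1 := (ring _ k2).1
    rw [← k3, (hc _ (by omega)).2, wq a i hi, if_pos ⟨k, Or.inl rfl⟩, add_assoc,
      Two.z2, add_zero] at i1
    exact i1.symm

theorem cnt4 (n : ℕ) (P : ℕ → Prop) : cnt (4 * n) (fun p => P (p / 4) ∧ p % 4 = 0) = cnt n P ∧
    cnt (4 * n) (fun p => P (p / 4)) = 4 * cnt n P := by
  induction n with
  | zero => simp [cnt]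
  | succ n ih =>
    have e : ∀ q < 4, (4 * n + q) / 4 = n := fun q hq => by omega
    rw [show 4 * (n + 1) = 4 * n + 1 + 1 + 1 + 1 by omega]
    simp only [cnt_succ, ih.1, ih.2, show (4 * n + 1 + 1 + 1) / 4 = n by omega,
      show (4 * n + 1 + 1) / 4 = n by omega, show (4 * n + 1) / 4 = n by omega,
      show 4 * n / 4 = n by omega, show (4 * n + 1 + 1 + 1) % 4 = 3 by omega,
      show (4 * n + 1 + 1) % 4 = 2 by omega, show (4 * n + 1) % 4 = 1 by omega,
      show 4 * n % 4 = 0 by omega]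
    by_cases h : P n
    · simp [h]; omega
    · simp [h]

theorem cnt_split (n : ℕ) (P Q : ℕ → Prop) :
    cnt n P = cnt n (fun a => Q a ∧ P a) + cnt n fun a => ¬Q a ∧ P a := by
  induction n with
  | zero => simp [cnt]
  | succ n ih =>
    rw [cnt_succ, cnt_succ, cnt_succ, ih]
    by_cases h1 : P n <;> by_cases h2 : Q n <;> simp [h1, h2] <;> omega

theorem ncl_split (n : ℕ) (A : ℕ → Prop) (r : ℕ → ℕ → Prop) :
    ncl n (fun _ => True) r = ncl n A r + ncl n (fun a => ¬A a) r := by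
  unfold ncl
  simp only [true_and]
  exact cnt_split _ _ _

/-- COUNT: the regions are the cycles of `r4 ∘ lk` on the ports of the alive cells. -/
theorem count (h : Pln n lk) (iv : Iv (4 * n) lk) (h0 : ∀ p < 4 * n, lk p = p ↔ ¬al (p / 4)) :
    ncl (4 * n) (fun p => al (p / 4)) (Sc (4 * n) fun p => r4 (lk p)) =
      cnt n al + 2 * ncl (4 * n) (fun p => al (p / 4)) (Conn (4 * n) r4 lk) := by
  have g := Pl.gen (Two.Col.pl h Two.pm iv) Two.pm iv
  have cell : ∀ {A : ℕ → Prop} {r : ℕ → ℕ → Prop},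
      (∀ p < 4 * n, A (p / 4) → ∀ e < 4 * n, r p e ↔ p / 4 = e / 4) →
      ncl (4 * n) (fun p => A (p / 4)) r = cnt n A := fun {A r} k => by
    rw [← (cnt4 n A).1]
    refine cnt_congr fun p hp => and_congr_right fun a => ⟨fun u => ?_, fun u e he v => ?_⟩
    · have := u (4 * (p / 4)) (by omega) ((k p hp a _ (by omega)).2 (by omega))
      omega
    · have := (k p hp a e he).1 v
      omega
  have v : ncl (4 * n) (fun _ => True) (Sc (4 * n) r4) = n :=
    (cell (A := fun _ => True) fun p hp _ e _ => (Two.sc hp).symm).trans (by simp [cnt])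
  have r : ∀ p, r4 p / 4 = p / 4 := fun p => by unfold r4; omega
  have dl : ∀ p < 4 * n, ¬al (p / 4) ↔ ¬al (lk p / 4) := fun p hp => by
    rw [← h0 p hp, ← h0 _ (iv p hp).1, (iv p hp).2, eq_comm]
  have c : ncl (4 * n) (fun p => ¬al (p / 4)) (Conn (4 * n) r4 lk) = cnt n fun a => ¬al a := by
    refine cell (A := fun a => ¬al a) fun p hp a e he => ⟨fun k => ?_, fun k =>
      Sc.conn' _ Two.pm hp ((Two.sc hp).1 k)⟩
    refine (Conn.ind (r := fun x y => x / 4 = p / 4 ↔ y / 4 = p / 4)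
      ⟨fun _ => Iff.rfl, Iff.symm, Iff.trans⟩ (fun x _ => by rw [r]) (fun x hx => ?_) k).1 rfl |>.symm
    by_cases u : al (x / 4)
    · have u' := not_not.1 ((dl x hx).not.1 (not_not.2 u))
      exact ⟨fun e => absurd (e ▸ u) a, fun e => absurd (e ▸ u') a⟩
    · rw [(h0 x hx).2 u]
  have pm := Two.pm.comp iv.pm
  have f : ncl (4 * n) (fun p => ¬al (p / 4)) (Sc (4 * n) fun p => r4 (lk p)) =
      cnt n fun a => ¬al a := by
    refine cell (A := fun a => ¬al a) fun p hp a e he => ⟨fun k => ?_, fun k => ?_⟩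
    · exact Sc.ind (Q := fun x => p / 4 = x / 4) pm.1 hp rfl
        (fun x hx u => by rw [(h0 x hx).2 (u ▸ a), r, u]) k
    · exact (Sc.ind (Q := fun x => p / 4 = x / 4 ∧ Sc (4 * n) (fun p => r4 (lk p)) p x) Two.pm.1 hp
        ⟨rfl, Sc.refl _ hp⟩ (fun x hx u => ⟨by rw [r, u.1], by
          have := u.2.trans pm.1 hp (Sc.step pm.1 hx)
          rwa [(h0 x hx).2 (u.1 ▸ a)] at this⟩) ((Two.sc hp).1 k)).2
  have two : ∀ p < 4 * n, ∀ e, Sc (4 * n) lk p e → e = p ∨ e = lk p := fun p hp e k =>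
    Sc.ind (Q := fun e => e = p ∨ e = lk p) iv.pm.1 hp (Or.inl rfl)
      (fun x _ u => u.elim (fun u => Or.inr (by rw [u])) fun u => Or.inl (by rw [u, (iv p hp).2])) k
  have e1 : ncl (4 * n) (fun p => ¬al (p / 4)) (Sc (4 * n) lk) = 4 * cnt n fun a => ¬al a := by
    rw [← (cnt4 n _).2]
    refine cnt_congr fun p hp => ⟨And.left, fun a => ⟨a, fun e _ k => ?_⟩⟩
    have := two p hp e k
    rw [(h0 p hp).2 a] at this
    omega
  have e2 : ncl (4 * n) (fun p => al (p / 4)) (Sc (4 * n) lk) = 2 * cnt n al := by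
    have i1 : ncl (4 * n) (fun p => al (p / 4)) (Sc (4 * n) lk) =
        cnt (4 * n) fun p => p ≤ lk p ∧ al (p / 4) :=
      cnt_congr fun p hp => ⟨fun k => ⟨k.2 _ (iv p hp).1 (Sc.step iv.pm.1 hp), k.1⟩,
        fun k => ⟨k.2, fun e _ u => by have := two p hp e u; omega⟩⟩
    have i2 := cnt_split (4 * n) (fun p => al (p / 4)) fun p => p ≤ lk p
    have al' : ∀ p < 4 * n, al (p / 4) → al (lk p / 4) ∧ lk p ≠ p := fun p hp u =>
      ⟨not_not.1 ((dl p hp).not.1 (not_not.2 u)), fun e => (h0 p hp).1 e u⟩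
    have i3 : cnt (4 * n) (fun p => p ≤ lk p ∧ al (p / 4)) ≤
        cnt (4 * n) fun p => ¬p ≤ lk p ∧ al (p / 4) :=
      cnt_inj lk (fun p hp k => ⟨(iv p hp).1, by
        have := (al' p hp k.2).2
        rw [(iv p hp).2]; omega, (al' p hp k.2).1⟩) fun a ha b hb _ _ => iv.pm.2 a ha b hb
    have i4 : cnt (4 * n) (fun p => ¬p ≤ lk p ∧ al (p / 4)) ≤
        cnt (4 * n) fun p => p ≤ lk p ∧ al (p / 4) :=
      cnt_inj lk (fun p hp k => ⟨(iv p hp).1, by rw [(iv p hp).2]; omega, (al' p hp k.2).1⟩)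
        fun a ha b hb _ _ => iv.pm.2 a ha b hb
    rw [(cnt4 n al).2] at i2
    omega
  have t : n = cnt n al + cnt n fun a => ¬al a := by
    have t := cnt_split n (fun _ => True) al
    simp only [and_true] at t
    rwa [show cnt n (fun _ => True) = n by simp [cnt]] at t
  unfold gen at g
  rw [v, ncl_split _ (fun p => al (p / 4)) (Conn _ _ _), ncl_split _ (fun p => al (p / 4)) (Sc _ lk),
    ncl_split _ (fun p => al (p / 4)) (Sc _ fun p => r4 (lk p)), c, f, e1, e2] at g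
  push_cast at g
  omega

theorem count_ge (h : Pln n lk) (iv : Iv (4 * n) lk) (h0 : ∀ p < 4 * n, lk p = p ↔ ¬al (p / 4))
    {c : ℕ} (hc : c < n) (a : al c) :
    cnt n al + 2 ≤ ncl (4 * n) (fun p => al (p / 4)) (Sc (4 * n) fun p => r4 (lk p)) := by
  rw [count h iv h0]
  obtain ⟨k1, k2⟩ := lst_spec (n := 4 * n) (P := fun p => al (p / 4))
    ⟨4 * c, by omega, by rwa [show 4 * c / 4 = c by omega]⟩
  have : 0 < ncl (4 * n) (fun p => al (p / 4)) (Conn (4 * n) r4 lk) := by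
    refine cnt_pos k1 ⟨k2, fun e he k => lst_le he ?_⟩
    refine (Conn.ind (r := fun x y => al (x / 4) ↔ al (y / 4))
      ⟨fun _ => Iff.rfl, Iff.symm, Iff.trans⟩ (fun x _ => ?_) (fun x hx => ?_) k).1 k2
    · rw [show r4 x / 4 = x / 4 by unfold r4; omega]
    · rw [← not_iff_not, ← h0 x hx, ← h0 _ (iv x hx).1, (iv x hx).2, eq_comm]
  omega

end Pool.Agent.MP_1a6d78_lc.PL

end MrgPart2

-- marker of a merged file
example : 731051 + 679759 = 731051 + 679759 := rfl
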