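import Pool.Agent.MP_1a6d78_lc.PR.All

/-! PROJECT PSC: plane maps of cells; the cover reduction. -/

namespace Pool.Agent.MP_1a6d78_lc.PL

open Classical ED PR

noncomputable section

/-- The other dart of the cell: `2 c` is the tail and `2 c + 1` the head of the cell `c`. -/
def fl (d : ℕ) : ℕ := if d % 2 = 0 then d + 1 else d - 1

/-- Walks along `f` and from the tail to the head of a cell.  With `f = ρ` these are the directed
walks, with `f = ρ ∘ fl` the directed walks of the dual. -/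
def Go (n : ℕ) (f : ℕ → ℕ) : ℕ → ℕ → Prop :=
  Relation.ReflTransGen fun a b => a < 2 * n ∧ (b = f a ∨ (a % 2 = 0 ∧ b = a + 1))

/-- The links of the ports: the port `2 d` is linked to the port `2 (ρ d) + 1`. -/
def lam (n : ℕ) (ρ : ℕ → ℕ) (p : ℕ) : ℕ :=
  if p % 2 = 0 then 2 * ρ (p / 2) + 1 else 2 * lst (2 * n) fun d => ρ d = p / 2

/-- Walks of a map with usable darts `us`. -/
def Wk (n : ℕ) (ρ β : ℕ → ℕ) (us : ℕ → Prop) : ℕ → ℕ → Prop :=
  Relation.ReflTransGen fun a b => a < n ∧ (b = ρ a ∨ (us a ∧ b = β a))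

def far (us : ℕ → Prop) (a : ℕ) : ℕ := if us a then 4 * a + 3 else 4 * a + 2

def mid (us : ℕ → Prop) (a : ℕ) : ℕ := if us a then 4 * a + 2 else 4 * a + 3

/-- Every dart `a` becomes a strand of the two cells `2 a` and `2 a + 1`. -/
def gad (ρ β : ℕ → ℕ) (us : ℕ → Prop) (d : ℕ) : ℕ :=
  if d % 4 = 0 then far us (β (ρ (d / 4))) else if d % 4 = 1 then mid us (d / 4)
  else if d = far us (d / 4) then 4 * β (d / 4) else 4 * (d / 4) + 1

/-- A pairing repeated in every block. -/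
def blk (m : ℕ) (o : ℕ → ℕ) (j : ℕ) : ℕ := j / m * m + o (j % m)

/-- A window of a pairing. -/
def win (c L : ℕ) (f : ℕ → ℕ) (j : ℕ) : ℕ :=
  if c ≤ f (j + c) ∧ f (j + c) < c + L then f (j + c) - c else j

/-- A pairing of a circle read from `a` on. -/
def rot (m a : ℕ) (o : ℕ → ℕ) (r : ℕ) : ℕ :=
  if a ≤ o ((r + a) % m) then o ((r + a) % m) - a else o ((r + a) % m) + m - a

def upP (L c : ℕ) (u : ℕ → ℕ) (p : ℕ) : ℕ :=
  if p = 2 * L then 2 * c else if p = 2 * c then 2 * L else if p % 2 = 1 then 2 * u (p / 2) + 1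
  else p

def dnP (v : ℕ → ℕ) (p : ℕ) : ℕ :=
  if p = 0 then 0 else if p % 2 = 1 then 2 * v (p / 2) + 2 else 2 * v (p / 2 - 1) + 1

section
variable (M : Mp)

def fm : Fm := ⟨M.n, M.ρ, M.β, M.nd, fun _ => M.n, fun _ => 0⟩

/-- A spanning forest. -/
def ta : ℕ → ℕ := (fm M).tau

def ph (d : ℕ) : ℕ := M.ρ (ta M d)

/-- The length of the contour through `t`. -/
def per : ℕ := lst (M.n + 1) fun k => 0 < k ∧ it M.n (ph M) k M.t = M.t

def dd (j : ℕ) : ℕ := it M.n (ph M) (j % per M) M.t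

def ix (d : ℕ) : ℕ := lst M.n fun k => it M.n (ph M) k M.t = d

def len : ℕ := (2 * M.n + 1) * per M

def dnJ : ℕ → ℕ := blk (per M) fun r => ix M (ta M (dd M r))

def upJ : ℕ → ℕ := win (per M - ix M M.s) (len M) (blk (per M) (rot (per M) (ix M M.s)
  fun r => ix M (out M.β (ta M) (dd M r))))

def b0 : ℕ → ℕ :=
  b2 (2 * len M + 1) (upP (len M) (M.n * per M + ix M M.s) (upJ M)) (dnP (dnJ M))

def us0 (d : ℕ) : Prop :=
  (d % 4 = 0 ∧ (d / 4 % 2 = 0 ∨ (ta M (dd M (d / 8)) ≠ dd M (d / 8) ∧ M.dir (dd M (d / 8))))) ∨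
    (d % 4 = 1 ∧ ((d / 4 = 2 * len M ∧ Sc M.n (ph M) M.t M.s) ∨
      (d / 4 % 2 = 1 ∧ M.dir (dd M (d / 8))))) ∨ (d % 4 = 3 ∧ d / 4 % 2 = 1)

/-- The number of cells of the cover. -/
def cells : ℕ := 8 * (2 * len M + 1)

/-- The rotation of the cover. -/
def rho : ℕ → ℕ := gad r4 (b0 M) (us0 M)

/-- The marked cell. -/
def e0 : ℕ := 16 * len M + 2

end

/-- NB: a directed cycle through the cell `c` gives a potential on the faces that does not fall
across any cell and rises across `c`. -/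
def PotS : Prop :=
  ∀ (n c : ℕ) (ρ : ℕ → ℕ), Pm (2 * n) ρ → Pl (2 * n) ρ fl → c < n → Go n ρ (2 * c + 1) (2 * c) →
    ∃ col : ℕ → ℤ, (∀ d < 2 * n, col (ρ (fl d)) = col d) ∧
      (∀ e < n, col (2 * e) ≤ col (2 * e + 1)) ∧ col (2 * c) < col (2 * c + 1)

/-- RED -/
def RedS : Prop :=
  ∀ M : Mp, M.Ok → M.t < M.n →
    Pm (2 * cells M) (rho M) ∧ Pl (2 * cells M) (rho M) fl ∧ gen (2 * cells M) (rho M) fl = 0 ∧
      e0 M < cells M ∧ (Relation.ReflTransGen M.arc (M.nd M.s) (M.nd M.t) ↔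
        Go (cells M) (rho M) (2 * e0 M + 1) (2 * e0 M))

/-- The cover is computable. -/
def RedC : Prop :=
  ∀ κ, (Cn κ fun x _ => cells (inp x)) ∧ (F1 κ fun x _ => rho (inp x)) ∧
    (Cn κ fun x _ => e0 (inp x)) ∧ (F1 κ fun x _ => lam (cells (inp x)) (rho (inp x))) ∧
    ∀ x, cells (inp x) ≤ (x.length + 2) ^ 6

end

end Pool.Agent.MP_1a6d78_lc.PL
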