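import Pool.Agent.MP_1a6d78_lc.PL.Defs

-- ======== part 0: formerly Pool.Agent.MP_1a6d78_lc.PL.NB
section MrgPart0

/-! PROJECT PSC, row NB: circulations of a plane map are boundaries; not both. -/

namespace Pool.Agent.MP_1a6d78_lc.PL

open Classical ED PR Finset

variable {n : ℕ} {ρ β γ : ℕ → ℕ}

theorem fl0 (c : ℕ) : fl (2 * c) = 2 * c + 1 := by unfold fl; rw [if_pos (by omega)]

theorem fl1 (c : ℕ) : fl (2 * c + 1) = 2 * c := by unfold fl; rw [if_neg (by omega)]; rfl

theorem fl_iv (n : ℕ) : Iv (2 * n) fl := fun d hd => by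
  unfold fl
  split_ifs <;> omega

/-- Induction on the edges of an involution. -/
theorem iv_ind {P : (ℕ → ℕ) → Prop} (h0 : ∀ γ, (∀ d < n, γ d = d) → P γ)
    (h1 : ∀ γ a, Iv n γ → Sb n γ β → a < n → γ a ≠ a → P (del γ a) → P γ) :
    ∀ γ, Iv n γ → Sb n γ β → P γ := by
  intro γ
  induction h : cnt n (fun d => γ d ≠ d) using Nat.strong_induction_on generalizing γ with
  | _ k ih =>
    intro g s
    by_cases e : ∀ d < n, γ d = d
    · exact h0 γ e
    push Not at e
    obtain ⟨a, ha, e⟩ := e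
    refine h1 γ a g s ha e (ih _ ?_ _ rfl (g.del ha) ((del_sb n a γ).trans s))
    rw [← h]
    refine cnt_lt (a := a) (fun d _ k u => k ?_) ha e fun k => k ?_
    · unfold del
      split_ifs
      · rfl
      · exact u
    · simp [del]

theorem del_a (γ : ℕ → ℕ) (a : ℕ) : del γ a a = a := by simp [del]

theorem del_b (γ : ℕ → ℕ) (a : ℕ) : del γ a (γ a) = γ a := by simp [del]

theorem del_sw (g : Iv n γ) {a d : ℕ} (ha : a < n) : del γ a (sw a (γ a) d) = γ d := by
  by_cases h1 : d = a
  · simp [sw, del, h1]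
  by_cases h2 : d = γ a
  · subst h2; simp [sw, del, h1, (g a ha).2]
  simp [sw, del, h1, h2]

theorem Pl.gen (h : Pl n ρ β) (p : Pm n ρ) (q : Iv n β) : gen n ρ β = 0 := by
  have G := genK swapK nclK
  refine iv_ind (n := n) (β := β) (P := fun γ => PR.gen n ρ γ = 0) (fun γ e => ?_)
    (fun γ a g s ha e ih => ?_) β q fun _ _ => Or.inr rfl
  · rw [← G.zero p]
    exact (G.congr p (fun d k => ⟨k, rfl⟩) fun d k => (e d k).symm).symm
  · rw [← ih, ← G.good p (g.del ha) ha (g a ha).1 e.symm (del_a γ a) (del_b γ a) ?_]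
    · exact G.congr p g fun d _ => (del_sw g ha).symm
    · have b := (s a ha).resolve_left e
      rw [or_iff_not_imp_right, not_not, b]
      exact h _ (g.del ha) ((del_sb n a γ).trans s) a ha (del_a γ a)

theorem sum_pm {f : ℕ → ℕ} (p : Pm n f) (h : ℕ → ℤ) :
    ∑ d ∈ range n, h (f d) = ∑ d ∈ range n, h d := by
  refine sum_bij (fun d _ => f d) (fun d k => mem_range.2 (p.1 d (mem_range.1 k)))
    (fun a k b l e => p.2 a (mem_range.1 k) b (mem_range.1 l) e) (fun b k => ?_) fun _ _ => rfl
  obtain ⟨u, h1, r⟩ := p.period (mem_range.1 k)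
  obtain ⟨u, rfl⟩ : ∃ v, u = v + 1 := ⟨u - 1, by omega⟩
  rw [Function.iterate_succ_apply'] at r
  exact ⟨_, mem_range.2 (iter_inv (Q := fun a => a < n) p.1 (mem_range.1 k) u), r⟩

/-- Every circulation is a boundary. -/
theorem Pl.colZ (h : Pl n ρ β) (p : Pm n ρ) : ∀ γ, Iv n γ → Sb n γ β → ∀ z y : ℕ → ℤ,
    (∀ d < n, z (γ d) = -z d) → (∀ d < n, y (ρ d) = y d + z d) →
      ∃ c : ℕ → ℤ, ∀ d < n, c (ρ d) = c d + z d ∧ c (γ d) = c d + z d := by
  refine iv_ind (fun γ e z y hz hy => ⟨y, fun d hd => ⟨hy d hd, ?_⟩⟩)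
    fun γ a g s ha e ih z y hz hy => ?_
  · have := hz d hd
    rw [e d hd] at this ⊢
    omega
  have g0 := g.del ha
  have hb := (g a ha).1
  have fin : ∀ z c : ℕ → ℤ, (∀ d < n, z (γ d) = -z d) → z a = 0 → c (γ a) = c a →
      (∀ d < n, c (ρ d) = c d + z d ∧ c (del γ a d) = c d + z d) →
      ∀ d < n, c (ρ d) = c d + z d ∧ c (γ d) = c d + z d := fun z c hz z0 e k d hd => by
    refine ⟨(k d hd).1, ?_⟩
    by_cases h1 : d = a
    · rw [h1, e, z0, add_zero]
    by_cases h2 : d = γ a
    · rw [h2, (g a ha).2, hz a ha, z0, e, neg_zero, add_zero]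
    have := (k d hd).2
    rwa [del, if_neg (by tauto)] at this
  have dz : ∀ z : ℕ → ℤ, (∀ d < n, z (γ d) = -z d) → z a = 0 →
      ∀ d < n, z (del γ a d) = -z d := fun z hz z0 d hd => by
    unfold del
    split_ifs with k
    · rcases k with k | k
      · rw [k, z0, neg_zero]
      · rw [k, hz a ha, z0, neg_zero, neg_zero]
    · exact hz d hd
  by_cases cn : Conn n ρ (del γ a) a (γ a)
  · have b := (s a ha).resolve_left e
    have sc : Sc n (fun d => ρ (del γ a d)) a (γ a) := by
      rw [b] at cn ⊢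
      exact h _ g0 ((del_sb n a γ).trans s) a ha (del_a γ a) cn
    have ns : ¬Sc n (fun d => ρ (γ d)) a (γ a) := fun k =>
      swapK.split (p.comp g0.pm) ha hb e.symm sc
        (k.congr (p.comp g.pm).1 (fun d _ => by rw [del_sw g ha]) ha)
    obtain ⟨w, hw⟩ : ∃ w : ℕ → ℤ, ∀ d, w d = if Sc n (fun d => ρ (γ d)) a d then z a else 0 :=
      ⟨_, fun _ => rfl⟩
    have pg := p.comp g.pm
    have w1 : ∀ d < n, w (ρ d) = w (γ d) := fun d hd => by
      have k := Sc.step pg.1 (g d hd).1
      simp only [(g d hd).2] at k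
      rw [hw, hw]
      exact if_congr ⟨fun u => u.trans pg.1 ha (k.symm pg (g d hd).1), fun u => u.trans pg.1 ha k⟩
        rfl rfl
    have z1 : ∀ d < n, z (γ d) + (w (γ (γ d)) - w (γ d)) = -(z d + (w (γ d) - w d)) :=
      fun d hd => by rw [hz d hd, (g d hd).2]; ring
    have z0 : z a + (w (γ a) - w a) = 0 := by
      rw [hw, hw, if_neg ns, if_pos (Sc.refl _ ha)]; ring
    have dz1 := dz (fun d => z d + (w (γ d) - w d)) z1 z0
    obtain ⟨c, hc⟩ := ih (fun d => z d + (w (γ d) - w d)) (fun d => y d + w d) dz1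
      fun d hd => by simp only [hy d hd, w1 d hd]; ring
    have ce : c (γ a) = c a := Sc.ind (Q := fun d => c d = c a) (p.comp g0.pm).1 ha rfl
      (fun d hd k => by
        have i1 := (hc _ (g0 d hd).1).1
        have i2 := (hc d hd).2
        have i3 := dz1 d hd
        beta_reduce at i1 i2 i3 ⊢
        omega) sc
    refine ⟨fun d => c d - w d, fun d hd => ?_⟩
    have i := fin (fun d => z d + (w (γ d) - w d)) c z1 z0 ce hc d hd
    have := w1 d hd
    beta_reduce at i ⊢
    omega
  · obtain ⟨w, hw⟩ : ∃ w : ℕ → ℤ, ∀ d, w d = if Conn n ρ (del γ a) a d then 1 else 0 :=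
      ⟨_, fun _ => rfl⟩
    have w1 : ∀ d < n, w (ρ d) = w d := fun d hd => by
      rw [hw, hw]
      exact if_congr ⟨fun u => u.trans (Conn.rho ρ _ hd).symm, fun u => u.trans (Conn.rho ρ _ hd)⟩
        rfl rfl
    have w2 : ∀ d < n, w (del γ a d) = w d := fun d hd => by
      rw [hw, hw]
      exact if_congr ⟨fun u => u.trans (Conn.gam ρ _ hd).symm, fun u => u.trans (Conn.gam ρ _ hd)⟩
        rfl rfl
    have wa : w a = 1 := by rw [hw, if_pos (Conn.refl _ _ _ _)]
    have wb : w (γ a) = 0 := by rw [hw, if_neg cn]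
    have z0 : z a = 0 := by
      have s1 := sum_pm p fun d => w d * y d
      have s2 := sum_pm g0.pm fun d => w d * z d
      have s3 : ∑ d ∈ range n, w (ρ d) * y (ρ d) =
          ∑ d ∈ range n, w d * y d + ∑ d ∈ range n, w d * z d := by
        rw [← sum_add_distrib]
        exact sum_congr rfl fun d k => by rw [w1 d (mem_range.1 k), hy d (mem_range.1 k)]; ring
      have s4 : ∑ d ∈ range n, w (del γ a d) * z (del γ a d) + ∑ d ∈ range n, w d * z d =
          ∑ d ∈ range n, if d = a then 2 * z a else 0 := by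
        rw [← sum_add_distrib]
        refine sum_congr rfl fun d k => ?_
        rw [w2 d (mem_range.1 k)]
        by_cases h1 : d = a
        · rw [if_pos h1, h1, del_a, wa]; ring
        by_cases h2 : d = γ a
        · rw [if_neg h1, h2, wb]; ring
        rw [if_neg h1, del, if_neg (by tauto), hz d (mem_range.1 k)]; ring
      rw [sum_ite_eq', if_pos (mem_range.2 ha)] at s4
      omega
    obtain ⟨c, hc⟩ := ih z y (dz z hz z0) hy
    refine ⟨fun d => c d + (c (γ a) - c a) * w d,
      fin z (fun d => c d + (c (γ a) - c a) * w d) hz z0 ?_ fun d hd => ?_⟩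
    · simp only [wa, wb]; ring
    · simp only [w1 d hd, w2 d hd, (hc d hd).1, (hc d hd).2]
      constructor <;> ring

theorem Go.lt {f : ℕ → ℕ} {a b : ℕ} (h : Go n f a b) (p : ∀ d < 2 * n, f d < 2 * n)
    (ha : a < 2 * n) : b < 2 * n := by
  induction h with
  | refl => exact ha
  | tail _ k _ =>
    rcases k with ⟨k, rfl | ⟨k', rfl⟩⟩
    · exact p _ k
    · omega

theorem potS : PotS := by
  intro n c ρ p h hc go
  have key : ∀ x, Go n ρ (2 * c + 1) x → ∃ z y : ℕ → ℤ, (∀ d < 2 * n, z (fl d) = -z d) ∧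
      (∀ e, 0 ≤ z (2 * e)) ∧ ∀ d < 2 * n, y (ρ d) = y d + (z d + ((if d = x then 1 else 0) -
        if d = 2 * c + 1 then 1 else 0)) := fun x k => by
    induction k with
    | refl => exact ⟨fun _ => 0, fun _ => 0, by simp, by simp, by simp⟩
    | @tail u v _ k ih =>
      obtain ⟨z, y, h1, h2, h3⟩ := ih
      rcases k with ⟨k, rfl | ⟨k', rfl⟩⟩
      · refine ⟨z, fun d => y d - if d = ρ u then 1 else 0, h1, h2, fun d hd => ?_⟩
        have : ρ d = ρ u ↔ d = u := ⟨p.2 d hd u k, fun r => by rw [r]⟩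
        simp only [this, h3 d hd]
        ring
      · refine ⟨fun d => z d + ((if d = u then 1 else 0) - if d = u + 1 then 1 else 0), y,
          fun d hd => ?_, fun e => ?_, fun d hd => ?_⟩
        · have i1 : fl d = u ↔ d = u + 1 := by unfold fl; split_ifs <;> omega
          have i2 : fl d = u + 1 ↔ d = u := by unfold fl; split_ifs <;> omega
          simp only [i1, i2, h1 d hd]
          ring
        · have := h2 e
          simp only [if_neg (show 2 * e ≠ u + 1 by omega)]
          split_ifs <;> omega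
        · simp only [h3 d hd]
          ring
  obtain ⟨z, y, h1, h2, h3⟩ := key _ go
  have a1 : ∀ d < 2 * n, z (fl d) + ((if fl d = 2 * c then 1 else 0) -
      if fl d = 2 * c + 1 then 1 else 0) = -(z d + ((if d = 2 * c then 1 else 0) -
        if d = 2 * c + 1 then 1 else 0)) := fun d hd => by
    have i1 : fl d = 2 * c ↔ d = 2 * c + 1 := by unfold fl; split_ifs <;> omega
    have i2 : fl d = 2 * c + 1 ↔ d = 2 * c := by unfold fl; split_ifs <;> omega
    simp only [i1, i2, h1 d hd]
    ring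
  obtain ⟨col, k⟩ := Pl.colZ h p fl (fl_iv n) (fun _ _ => Or.inr rfl) _ y a1 h3
  refine ⟨col, fun d hd => ?_, fun e he => ?_, ?_⟩
  · rw [(k _ (fl_iv n d hd).1).1, (k d hd).2, a1 d hd]
    ring
  · have i := (k (2 * e) (by omega)).2
    have := h2 e
    rw [fl0, if_neg (show 2 * e ≠ 2 * c + 1 by omega)] at i
    split_ifs at i <;> omega
  · have i := (k (2 * c) (by omega)).2
    have := h2 c
    rw [fl0, if_pos rfl, if_neg (show 2 * c ≠ 2 * c + 1 by omega)] at i
    omega

/-- NOT BOTH: no cell of a plane map is on a directed cycle and on a directed cycle of the dual. -/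
theorem nb {c : ℕ} (p : Pm (2 * n) ρ) (h : Pl (2 * n) ρ fl) (hc : c < n)
    (g1 : Go n ρ (2 * c + 1) (2 * c)) (g2 : Go n (fun d => ρ (fl d)) (2 * c + 1) (2 * c)) :
    False := by
  obtain ⟨col, h1, h2, h3⟩ := potS n c ρ p h hc g1
  have : ∀ x, Go n (fun d => ρ (fl d)) (2 * c + 1) x → col (2 * c + 1) ≤ col x := fun x k => by
    induction k with
    | refl => exact le_rfl
    | @tail u v _ k ih =>
      rcases k with ⟨k, rfl | ⟨k', rfl⟩⟩
      · exact ih.trans (h1 u k).ge
      · obtain ⟨e, rfl⟩ : ∃ e, u = 2 * e := ⟨u / 2, by omega⟩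
        exact ih.trans (h2 e (by omega))
  exact absurd (this _ g2) (not_le.2 h3)

theorem nb_gen {c : ℕ} (p : Pm (2 * n) ρ) (h : gen (2 * n) ρ fl ≤ 0) (hc : c < n)
    (g1 : Go n ρ (2 * c + 1) (2 * c)) (g2 : Go n (fun d => ρ (fl d)) (2 * c + 1) (2 * c)) :
    False := nb p ((genK swapK nclK).pl p (fl_iv n) h) hc g1 g2

theorem lam_iv (p : Pm (2 * n) ρ) : Iv (4 * n) (lam n ρ) ∧
    (∀ d, lam n ρ (2 * d) = 2 * ρ d + 1) ∧ ∀ d < 2 * n, lam n ρ (2 * ρ d + 1) = 2 * d := by
  have h1 : ∀ d, lam n ρ (2 * d) = 2 * ρ d + 1 := fun d => by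
    rw [lam, if_pos (by omega), Nat.mul_div_cancel_left _ two_pos]
  have h2 : ∀ d < 2 * n, lam n ρ (2 * ρ d + 1) = 2 * d := fun d hd => by
    have e : (2 * ρ d + 1) / 2 = ρ d := by omega
    have := lst_spec (P := fun e => ρ e = ρ d) ⟨d, hd, rfl⟩
    rw [lam, if_neg (by omega), e, p.2 _ this.1 d hd this.2]
  refine ⟨fun q hq => ?_, h1, h2⟩
  rcases Nat.even_or_odd' q with ⟨d, rfl | rfl⟩
  · have := p.1 d (by omega)
    rw [h1, h2 d (by omega)]
    exact ⟨by omega, rfl⟩
  · obtain ⟨u, k, r⟩ := p.period (a := d) (by omega)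
    obtain ⟨u, rfl⟩ : ∃ v, u = v + 1 := ⟨u - 1, by omega⟩
    rw [Function.iterate_succ_apply'] at r
    have l := iter_inv (Q := fun a => a < 2 * n) p.1 (d := d) (by omega) u
    rw [← r, h2 _ l, h1]
    exact ⟨by omega, rfl⟩

end Pool.Agent.MP_1a6d78_lc.PL

end MrgPart0

-- ======== part 1: formerly Pool.Agent.MP_1a6d78_lc.PL.Gad
section MrgPart1

/-! PROJECT PSC, row RED, part 1: from usable darts to cells. -/

namespace Pool.Agent.MP_1a6d78_lc.PL

open Classical ED PR

variable {N : ℕ} {ρ β : ℕ → ℕ} {us : ℕ → Prop}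

theorem fm_cases (us : ℕ → Prop) (a : ℕ) : (us a ∧ far us a = 4 * a + 3 ∧ mid us a = 4 * a + 2) ∨
    (¬us a ∧ far us a = 4 * a + 2 ∧ mid us a = 4 * a + 3) := by
  unfold far mid
  by_cases h : us a <;> simp [h]

theorem g0 (a : ℕ) : gad ρ β us (4 * a) = far us (β (ρ a)) := by
  rw [gad, if_pos (by omega), Nat.mul_div_cancel_left _ four_pos]

theorem g1 (a : ℕ) : gad ρ β us (4 * a + 1) = mid us a := by
  rw [gad, if_neg (by omega), if_pos (by omega), show (4 * a + 1) / 4 = a by omega]

theorem gf (a : ℕ) : gad ρ β us (far us a) = 4 * β a := by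
  have := fm_cases us a
  have e : far us a / 4 = a := by omega
  rw [gad, if_neg (by omega), if_neg (by omega), e, if_pos rfl]

theorem gm (a : ℕ) : gad ρ β us (mid us a) = 4 * a + 1 := by
  have := fm_cases us a
  have e : mid us a / 4 = a := by omega
  rw [gad, if_neg (by omega), if_neg (by omega), e, if_neg (by omega)]

theorem gcases (us : ℕ → Prop) {d : ℕ} (h : d < 2 * (2 * N)) :
    ∃ a < N, d = 4 * a ∨ d = 4 * a + 1 ∨ d = far us a ∨ d = mid us a :=
  ⟨d / 4, by omega, by have := fm_cases us (d / 4); omega⟩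

theorem gad_pm (p : Pm N ρ) (q : Iv N β) : Pm (2 * (2 * N)) (gad ρ β us) := by
  refine ⟨fun d hd => ?_, fun d hd e he k => ?_⟩
  · obtain ⟨a, ha, rfl | rfl | rfl | rfl⟩ := gcases us hd
    · have := (q _ (p.1 a ha)).1
      have := fm_cases us (β (ρ a))
      rw [g0]; omega
    · have := fm_cases us a
      rw [g1]; omega
    · have := (q a ha).1
      rw [gf]; omega
    · rw [gm]; omega
  · obtain ⟨a, ha, r⟩ := gcases us hd
    obtain ⟨b, hb, s⟩ := gcases us he
    have f1 : ∀ x y, far us x = far us y → x = y := fun x y e => by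
      have := fm_cases us x
      have := fm_cases us y
      omega
    have f2 : ∀ x y, mid us x = mid us y → x = y := fun x y e => by
      have := fm_cases us x
      have := fm_cases us y
      omega
    have f3 : ∀ x y, far us x ≠ mid us y := fun x y e => by
      have := fm_cases us x
      have := fm_cases us y
      obtain rfl : x = y := by omega
      omega
    have f4 : ∀ x, 2 ≤ far us x % 4 ∧ 2 ≤ mid us x % 4 := fun x => by
      have := fm_cases us x
      omega
    have i1 := (f4 (β (ρ a))).1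
    have i2 := (f4 (β (ρ b))).1
    have i3 := (f4 a).2
    have i4 := (f4 b).2
    rcases r with rfl | rfl | rfl | rfl <;> rcases s with rfl | rfl | rfl | rfl <;>
      simp only [g0, g1, gf, gm] at k <;>
      first
        | omega
        | exact absurd k (f3 _ _)
        | exact absurd k.symm (f3 _ _)
        | rw [(q.pm.comp p).2 a ha b hb (f1 _ _ k)]
        | rw [f2 _ _ k]
        | rw [q.pm.2 a ha b hb (by omega)]
        | rw [show a = b by omega]

theorem fl_far (a : ℕ) : fl (far us a) = mid us a := by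
  have := fm_cases us a
  unfold fl
  split_ifs <;> omega

theorem fl_mid (a : ℕ) : fl (mid us a) = far us a := by
  have := fm_cases us a
  unfold fl
  split_ifs <;> omega

theorem fl40 (a : ℕ) : fl (4 * a) = 4 * a + 1 := by unfold fl; rw [if_pos (by omega)]

theorem fl41 (a : ℕ) : fl (4 * a + 1) = 4 * a := by unfold fl; rw [if_neg (by omega)]; rfl

theorem gad_col (p : Pm N ρ) (q : Iv N β) (h : Two.Col N ρ β) :
    Two.Col (2 * (2 * N)) (gad ρ β us) fl := by
  intro z y hz hy
  have lf : ∀ a < N, far us a < 2 * (2 * N) := fun a _ => by have := fm_cases us a; omega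
  have lm : ∀ a < N, mid us a < 2 * (2 * N) := fun a _ => by have := fm_cases us a; omega
  have w1 : ∀ a < N, z (4 * a + 1) = z (4 * a) := fun a ha => by
    have := (hz (4 * a) (by omega)).1
    rwa [fl40] at this
  have w2 : ∀ a < N, z (mid us a) = z (4 * a) := fun a ha => by
    have i1 := hy (4 * a + 1) (by omega)
    have i2 := hy _ (lm a ha)
    rw [g1, w1 a ha] at i1
    rw [gm] at i2
    linear_combination -i1 - i2 - Two.z2 (z (4 * a))
  have w3 : ∀ a < N, z (far us a) = z (4 * a) := fun a ha => by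
    rw [← w2 a ha, ← fl_mid, (hz _ (lm a ha)).1]
  obtain ⟨c, hc⟩ := h (fun a => z (4 * a) + z (4 * β a)) (fun a => y (far us (β a)))
    (fun a ha => ⟨by simp only [(q a ha).2, add_comm], fun e => by simp only [e, Two.z2]⟩)
    fun a ha => by
      have i1 := hy (4 * a) (by omega)
      have i2 := hy _ (lf _ (q a ha).1)
      rw [g0] at i1
      rw [gf, (q a ha).2, w3 _ (q a ha).1] at i2
      linear_combination i1 + i2
  obtain ⟨e, he⟩ : ∃ e : ℕ → ZMod 2, ∀ d, e d = if d % 4 = 0 then c (d / 4) + z (4 * β (d / 4))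
      else if d = mid us (d / 4) then c (β (d / 4)) + z (4 * (d / 4)) else c (β (d / 4)) :=
    ⟨_, fun _ => rfl⟩
  have e0 : ∀ a, e (4 * a) = c a + z (4 * β a) := fun a => by
    rw [he, if_pos (by omega), Nat.mul_div_cancel_left _ four_pos]
  have e1 : ∀ a, e (4 * a + 1) = c (β a) := fun a => by
    have := fm_cases us a
    rw [he, if_neg (by omega), show (4 * a + 1) / 4 = a by omega, if_neg (by omega)]
  have ef : ∀ a, e (far us a) = c (β a) := fun a => by
    have := fm_cases us a
    rw [he, if_neg (by omega), show far us a / 4 = a by omega, if_neg (by omega)]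
  have em : ∀ a, e (mid us a) = c (β a) + z (4 * a) := fun a => by
    have := fm_cases us a
    rw [he, if_neg (by omega), show mid us a / 4 = a by omega, if_pos rfl]
  refine ⟨e, fun d hd => ?_⟩
  obtain ⟨a, ha, rfl | rfl | rfl | rfl⟩ := gcases us hd
  · have := hc a ha
    rw [g0, fl40, ef, e0, e1, (q _ (p.1 a ha)).2, this.1, this.2]
    constructor <;> ring
  · rw [g1, fl41, em, e0, e1, w1 a ha, (hc a ha).2]
    exact ⟨rfl, by linear_combination -Two.z2 (z (4 * a))⟩
  · rw [gf, fl_far, em, e0, ef, w3 a ha, (q a ha).2]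
    exact ⟨rfl, rfl⟩
  · rw [gm, fl_mid, em, e1, ef, w2 a ha]
    constructor <;> linear_combination -Two.z2 (z (4 * a))

theorem gad_go (p : Pm N ρ) (q : Iv N β) {a : ℕ} (ha : a < N) :
    Go (2 * N) (gad ρ β us) (4 * a + 1) (4 * a) ↔ us a ∧ Wk N ρ β us (β a) a := by
  have run : ∀ x < N, us x → Go (2 * N) (gad ρ β us) (4 * x + 1) (4 * β x) := fun x hx u => by
    have := ((fm_cases us x).resolve_right fun k => k.1 u).2
    refine .head ⟨by omega, Or.inl (g1 x).symm⟩ (.head (b := far us x) ⟨by omega, Or.inr (by omega)⟩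
      (.single ⟨by omega, Or.inl (gf x).symm⟩))
  constructor
  · intro h
    have key : ∀ d, Go (2 * N) (gad ρ β us) (4 * a + 1) d →
        (∃ x < N, (d = 4 * x + 1 ∨ d = mid us x) ∧
          (us x → x = a ∨ (us a ∧ Wk N ρ β us (β a) x))) ∨
        (us a ∧ ∃ x < N, Wk N ρ β us (β a) x ∧ (d = 4 * x ∨ d = far us (β x))) := fun d k => by
      induction k with
      | refl => exact Or.inl ⟨a, ha, Or.inl rfl, fun _ => Or.inl rfl⟩
      | @tail u v _ k ih =>
        rcases ih with ⟨x, hx, r, s⟩ | ⟨ua, x, hx, s, r⟩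
        · have := fm_cases us x
          rcases k with ⟨-, rfl | ⟨k, rfl⟩⟩
          · refine Or.inl ⟨x, hx, ?_, s⟩
            rcases r with rfl | rfl
            · exact Or.inr (g1 x)
            · exact Or.inl (gm x)
          · have ux : us x := by
              by_contra u
              have := (this.resolve_left fun k => u k.1).2
              omega
            have := (this.resolve_right fun k => k.1 ux).2
            have e : u + 1 = far us (β (β x)) := by rw [(q x hx).2]; omega
            rcases s ux with rfl | ⟨ua, s⟩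
            · exact Or.inr ⟨ux, _, (q x hx).1, .refl, Or.inr e⟩
            · exact Or.inr ⟨ua, _, (q x hx).1, s.tail ⟨hx, Or.inr ⟨ux, rfl⟩⟩, Or.inr e⟩
        · have := fm_cases us (β x)
          rcases k with ⟨-, rfl | ⟨k, rfl⟩⟩
          · rcases r with rfl | rfl
            · exact Or.inr ⟨ua, _, p.1 x hx, s.tail ⟨hx, Or.inl rfl⟩, Or.inr (g0 x)⟩
            · exact Or.inr ⟨ua, x, hx, s, Or.inl (by rw [gf, (q x hx).2])⟩
          · rcases r with rfl | rfl
            · exact Or.inl ⟨x, hx, Or.inl rfl, fun _ => Or.inr ⟨ua, s⟩⟩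
            · refine Or.inl ⟨_, (q x hx).1, Or.inr (by omega), fun u => ?_⟩
              have := (this.resolve_right fun k => k.1 u).2
              omega
    rcases key _ h with ⟨x, _, r, _⟩ | ⟨ua, x, _, s, r⟩
    · have := fm_cases us x
      omega
    · have := fm_cases us (β x)
      obtain rfl : x = a := by omega
      exact ⟨ua, s⟩
  · rintro ⟨ua, h⟩
    refine (run a ha ua).trans ?_
    suffices H : ∀ x y, Wk N ρ β us x y → Go (2 * N) (gad ρ β us) (4 * x) (4 * y) from H _ _ h
    intro x y h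
    induction h with
    | refl => exact .refl
    | @tail u v _ k ih =>
      rcases k with ⟨k, rfl | ⟨k', rfl⟩⟩
      · have := fm_cases us (β (ρ u))
        have := (q _ (p.1 u k)).1
        exact (ih.tail ⟨by omega, Or.inl (g0 u).symm⟩).tail
          ⟨by omega, Or.inl (by rw [gf, (q _ (p.1 u k)).2])⟩
      · exact (ih.tail ⟨by omega, Or.inr ⟨by omega, rfl⟩⟩).trans (run u k k')

end Pool.Agent.MP_1a6d78_lc.PL

end MrgPart1

-- marker of a merged file
example : 731051 + 576754 = 731051 + 576754 := rfl
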